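import Mathlib

/-!
Product of all monic polynomials of degree `j` over a finite field.
-/

namespace Pool.Agent.Lib253687

open Polynomial Finset

variable {F : Type*} [Field F] [Fintype F]

section Lin

variable {K : Type*} [Field K] [Algebra F K]

omit [Fintype F] in
/-- Frobenius iterate is additive. -/
theorem pow_card_pow_add [Fintype F] (x y : K) (k : ℕ) :
    (x + y) ^ (Fintype.card F ^ k) = x ^ (Fintype.card F ^ k) + y ^ (Fintype.card F ^ k) := by
  obtain ⟨p, hp⟩ := CharP.exists F
  have := hp
  have : Fact p.Prime := ⟨CharP.char_is_prime F p⟩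
  have : CharP K p := charP_of_injective_algebraMap (algebraMap F K).injective p
  obtain ⟨n, -, hn⟩ := FiniteField.card F p
  rw [hn, ← pow_mul]
  exact add_pow_char_pow x y p _

theorem algebraMap_pow_card_pow (c : F) (k : ℕ) :
    (algebraMap F K c) ^ (Fintype.card F ^ k) = algebraMap F K c := by
  rw [← map_pow, FiniteField.pow_card_pow]

/-- `∏_{c ∈ F} (z + c w) = z^q - w^(q-1) z`. -/
theorem prod_add_smul (z w : K) :
    ∏ c : F, (z + algebraMap F K c * w) =
      z ^ (Fintype.card F) - w ^ (Fintype.card F - 1) * z := by
  have hq : 1 < Fintype.card F := Fintype.one_lt_card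
  have hone : ∀ u : K, ∏ c : F, (u - algebraMap F K c) = u ^ (Fintype.card F) - u := by
    intro u
    have h1 : (∏ c : F, (X - C c) : F[X]) = X ^ (Fintype.card F) - X := by
      have hmonic : (X ^ (Fintype.card F) - X : F[X]).Monic := by
        apply monic_X_pow_sub
        rw [degree_X]
        exact_mod_cast hq
      have hroots := FiniteField.roots_X_pow_card_sub_X F
      have hcard : (X ^ (Fintype.card F) - X : F[X]).roots.card
          = (X ^ (Fintype.card F) - X : F[X]).natDegree := by
        rw [hroots, FiniteField.X_pow_card_sub_X_natDegree_eq F hq]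
        simp
      have := prod_multiset_X_sub_C_of_monic_of_roots_card_eq hmonic hcard
      rw [hroots] at this
      rw [← this]
      rfl
    have h2 := congrArg (fun f : F[X] => aeval u f) h1
    simpa [map_prod] using h2
  by_cases hw : w = 0
  · subst hw
    have : Fintype.card F - 1 ≠ 0 := by omega
    simp [this]
  · have h3 := hone (-(z / w))
    have h4 : ∏ c : F, (z + algebraMap F K c * w) = ∏ c : F, ((-w) * (-(z / w) - algebraMap F K c)) := by
      apply Finset.prod_congr rfl
      intro c _
      field_simp
      ring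
    rw [h4, Finset.prod_mul_distrib, h3]
    simp only [Finset.prod_const, Finset.card_univ]
    have h5 : (-(z / w)) ^ (Fintype.card F) = -(z/w) ^ (Fintype.card F) := by
      have := pow_card_pow_add (F := F) (z/w) (-(z/w)) 1
      rw [pow_one] at this
      rw [add_neg_cancel, zero_pow (by omega)] at this
      linear_combination -this
    have h6 : (-w) ^ (Fintype.card F) = - w ^ (Fintype.card F) := by
      have := pow_card_pow_add (F := F) w (-w) 1
      rw [pow_one] at this
      rw [add_neg_cancel, zero_pow (by omega)] at this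
      linear_combination -this
    rw [h5, h6]
    obtain ⟨m, hm⟩ : ∃ m, Fintype.card F = m + 1 := ⟨Fintype.card F - 1, by omega⟩
    rw [hm]
    simp only [Nat.add_sub_cancel]
    have h7 : (z / w) ^ (m + 1) * w ^ (m + 1) = z ^ (m + 1) := by
      rw [← mul_pow, div_mul_cancel₀ _ hw]
    have h8 : w ^ (m + 1) * (z / w) = w ^ m * z := by
      rw [pow_succ]
      field_simp
    linear_combination h7 - h8

/-- The product of `x + ∑ a_i y_i` over all coefficient vectors `a`. -/
noncomputable def linProd (F : Type*) [Field F] [Fintype F] {K : Type*} [Field K] [Algebra F K]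
    (y : ℕ → K) (j : ℕ) (x : K) : K :=
  ∏ a : Fin j → F, (x + ∑ i : Fin j, algebraMap F K (a i) * y i)

theorem linProd_zero (y : ℕ → K) (x : K) : linProd F y 0 x = x := by
  simp [linProd]

theorem linProd_succ_aux (y : ℕ → K) (j : ℕ) (x : K) :
    linProd F y (j + 1) x = ∏ c : F, linProd F y j (x + algebraMap F K c * y j) := by
  unfold linProd
  rw [← Finset.prod_product']
  apply Fintype.prod_equiv ((Fin.snocEquiv (fun _ : Fin (j+1) => F)).symm)
  intro a
  simp only [Fin.snocEquiv_symm_apply]
  rw [Fin.sum_univ_castSucc]
  simp [Fin.init]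
  ring

/-- `linProd` is an additive polynomial in `x`. -/
theorem linProd_form (y : ℕ → K) (j : ℕ) :
    ∃ c : ℕ → K, c j = 1 ∧ ∀ x, linProd F y j x =
      ∑ k ∈ range (j + 1), c k * x ^ (Fintype.card F ^ k) := by
  induction j with
  | zero => exact ⟨fun _ => 1, rfl, fun x => by simp [linProd_zero]⟩
  | succ j ih =>
    obtain ⟨c, hc1, hc⟩ := ih
    have hlin : ∀ (x z : K) (e : F), linProd F y j (x + algebraMap F K e * z)
        = linProd F y j x + algebraMap F K e * linProd F y j z := by
      intro x z e
      rw [hc, hc, hc, Finset.mul_sum, ← Finset.sum_add_distrib]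
      apply Finset.sum_congr rfl
      intro k _
      rw [pow_card_pow_add, mul_pow, algebraMap_pow_card_pow]
      ring
    set w := linProd F y j (y j) with hw
    have hstep : ∀ x, linProd F y (j+1) x =
        (linProd F y j x) ^ (Fintype.card F) - w ^ (Fintype.card F - 1) * linProd F y j x := by
      intro x
      rw [linProd_succ_aux]
      simp_rw [hlin]
      rw [← hw, prod_add_smul]
    have hfrob : ∀ (s : Finset ℕ) (g : ℕ → K),
        (∑ k ∈ s, g k) ^ (Fintype.card F) = ∑ k ∈ s, (g k) ^ (Fintype.card F) := by
      intro s g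
      induction s using Finset.induction_on with
      | empty => simp [Fintype.card_ne_zero]
      | insert a s ha ih2 =>
        rw [Finset.sum_insert ha, Finset.sum_insert ha, ← ih2]
        have := pow_card_pow_add (F := F) (g a) (∑ k ∈ s, g k) 1
        simpa using this
    refine ⟨fun k => (if k = 0 then 0 else (c (k-1)) ^ (Fintype.card F)) -
      (if k ≤ j then w ^ (Fintype.card F - 1) * c k else 0), ?_, ?_⟩
    · simp [hc1]
    · intro x
      rw [hstep, hc, hfrob]
      simp_rw [sub_mul, Finset.sum_sub_distrib]
      congr 1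
      · rw [Finset.sum_range_succ' _ (j+1)]
        simp only [↓reduceIte, zero_mul, add_zero, Nat.add_eq_zero_iff, one_ne_zero, and_false,
          Nat.add_sub_cancel]
        apply Finset.sum_congr rfl
        intro k _
        rw [mul_pow, ← pow_mul, ← pow_succ]
      · rw [Finset.sum_range_succ _ (j+1)]
        simp only [add_le_iff_nonpos_right, nonpos_iff_eq_zero, one_ne_zero, ↓reduceIte, zero_mul,
          add_zero]
        rw [Finset.mul_sum]
        apply Finset.sum_congr rfl
        intro k hk
        rw [Finset.mem_range] at hk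
        rw [if_pos (by omega)]
        ring

/-- The main product formula: `∏_a (t^j + ∑ a_i t^i) = ∏_{k<j} (t^(q^j) - t^(q^k))`. -/
theorem linProd_pow (t : K) (j : ℕ) :
    linProd F (fun i => t ^ i) j (t ^ j) =
      ∏ k ∈ range j, (t ^ (Fintype.card F ^ j) - t ^ (Fintype.card F ^ k)) := by
  obtain ⟨c, hc1, hc⟩ := linProd_form (F := F) (fun i => t ^ i) j
  set g : K[X] := ∏ k ∈ range j, (X - C (t ^ (Fintype.card F ^ k))) with hg
  have hgm : g.Monic := monic_prod_of_monic _ _ (fun k _ => monic_X_sub_C _)
  have hgdeg : g.natDegree = j := by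
    rw [hg, natDegree_prod_of_monic _ _ (fun k _ => monic_X_sub_C _)]
    simp only [natDegree_X_sub_C]
    simp
  -- evaluate Φ(g) in two ways
  have h1 : ∑ k ∈ range (j+1), c k * g.eval (t ^ (Fintype.card F ^ k)) =
      ∏ k ∈ range j, (t ^ (Fintype.card F ^ j) - t ^ (Fintype.card F ^ k)) := by
    rw [Finset.sum_range_succ, Finset.sum_eq_zero, zero_add, hc1, one_mul, hg, eval_prod]
    · simp
    · intro k hk
      rw [hg, eval_prod, Finset.prod_eq_zero hk (by simp), mul_zero]
  have h2 : ∑ k ∈ range (j+1), c k * g.eval (t ^ (Fintype.card F ^ k)) =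
      ∑ i ∈ range (j+1), g.coeff i * linProd F (fun i => t ^ i) j (t ^ i) := by
    have : ∀ k, g.eval (t ^ (Fintype.card F ^ k)) =
        ∑ i ∈ range (j+1), g.coeff i * (t ^ (Fintype.card F ^ k)) ^ i := by
      intro k
      rw [eval_eq_sum_range, hgdeg]
    simp_rw [this, Finset.mul_sum]
    rw [Finset.sum_comm]
    apply Finset.sum_congr rfl
    intro i _
    rw [hc, Finset.mul_sum]
    apply Finset.sum_congr rfl
    intro k _
    rw [← pow_mul, ← pow_mul, mul_comm (Fintype.card F ^ k) i]
    ring
  rw [← h1, h2, Finset.sum_range_succ, Finset.sum_eq_zero, zero_add]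
  · have : g.coeff j = 1 := by
      rw [← hgdeg]; exact hgm
    rw [this, one_mul]
  · intro i hi
    rw [Finset.mem_range] at hi
    have : linProd F (fun i => t ^ i) j (t ^ i) = 0 := by
      unfold linProd
      apply Finset.prod_eq_zero (Finset.mem_univ (fun l : Fin j => if (l : ℕ) = i then (-1 : F) else 0))
      rw [Finset.sum_eq_single (⟨i, hi⟩ : Fin j)]
      · simp
      · intro b _ hb
        have : (b : ℕ) ≠ i := fun h => hb (Fin.ext h)
        simp [this]
      · simp
    rw [this, mul_zero]

end Lin

end Pool.Agent.Lib253687
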