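import Mathlib
import Pool.Agent.Lib_253687.Prod

/-!
Products over monic polynomials.
-/

namespace Pool.Agent.Lib253687

open Polynomial Finset

variable {F : Type*} [Field F] [Fintype F]

/-- The monic polynomial attached to a coefficient vector. -/
noncomputable def monicOf (j : ℕ) (a : Fin j → F) : F[X] :=
  X ^ j + ∑ i : Fin j, C (a i) * X ^ (i : ℕ)

omit [Fintype F] in
theorem monicOf_coeff_lt (j : ℕ) (a : Fin j → F) (i : Fin j) :
    (monicOf j a).coeff i = a i := by
  unfold monicOf
  rw [coeff_add, coeff_X_pow, if_neg (by have := i.2; omega), zero_add, finsetSum_coeff]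
  rw [Finset.sum_eq_single i]
  · simp
  · intro b _ hb
    rw [coeff_C_mul, coeff_X_pow, if_neg, mul_zero]
    intro h
    exact hb (Fin.ext h.symm)
  · simp

omit [Fintype F] in
theorem monicOf_injective (j : ℕ) : Function.Injective (monicOf (F := F) j) := by
  intro a b hab
  funext i
  rw [← monicOf_coeff_lt j a i, hab, monicOf_coeff_lt]

omit [Fintype F] in
theorem monicOf_degree_sum_lt (j : ℕ) (a : Fin j → F) :
    (∑ i : Fin j, C (a i) * X ^ (i : ℕ) : F[X]).degree < j := by
  apply lt_of_le_of_lt (degree_sum_le _ _)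
  rw [Finset.sup_lt_iff (by exact_mod_cast WithBot.bot_lt_coe j)]
  intro i _
  apply lt_of_le_of_lt (degree_C_mul_X_pow_le _ _)
  exact_mod_cast i.2

omit [Fintype F] in
theorem monicOf_monic (j : ℕ) (a : Fin j → F) : (monicOf j a).Monic :=
  monic_X_pow_add (monicOf_degree_sum_lt j a)

omit [Fintype F] in
theorem monicOf_natDegree (j : ℕ) (a : Fin j → F) : (monicOf j a).natDegree = j := by
  unfold monicOf
  apply natDegree_eq_of_degree_eq_some
  rw [degree_add_eq_left_of_degree_lt, degree_X_pow]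
  rw [degree_X_pow]
  exact monicOf_degree_sum_lt j a

omit [Fintype F] in
theorem eq_monicOf {j : ℕ} {f : F[X]} (hf : f.Monic) (hj : f.natDegree = j) :
    f = monicOf j (fun i => f.coeff i) := by
  unfold monicOf
  conv_lhs => rw [hf.as_sum, hj]
  rw [Finset.sum_range]

open Classical in
/-- The finite set of monic polynomials of degree `j`. -/
noncomputable def monicFinset (F : Type*) [Field F] [Fintype F] (j : ℕ) : Finset F[X] :=
  (Finset.univ : Finset (Fin j → F)).image (monicOf j)

theorem mem_monicFinset {j : ℕ} {f : F[X]} :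
    f ∈ monicFinset F j ↔ f.Monic ∧ f.natDegree = j := by
  classical
  unfold monicFinset
  rw [Finset.mem_image]
  constructor
  · rintro ⟨a, -, rfl⟩
    exact ⟨monicOf_monic j a, monicOf_natDegree j a⟩
  · rintro ⟨h1, h2⟩
    exact ⟨_, Finset.mem_univ _, (eq_monicOf h1 h2).symm⟩

theorem card_monicFinset (j : ℕ) : (monicFinset F j).card = (Fintype.card F) ^ j := by
  classical
  unfold monicFinset
  rw [Finset.card_image_of_injective _ (monicOf_injective j)]
  simp

/-- The product of all monic polynomials of degree `j`. -/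
noncomputable def Dfull (F : Type*) [Field F] [Fintype F] (j : ℕ) : F[X] :=
  ∏ f ∈ monicFinset F j, f

theorem Dfull_eq (j : ℕ) :
    Dfull F j = ∏ k ∈ range j, (X ^ (Fintype.card F ^ j) - X ^ (Fintype.card F ^ k)) := by
  classical
  apply IsFractionRing.injective F[X] (RatFunc F)
  have h := linProd_pow (F := F) (RatFunc.X : RatFunc F) j
  rw [map_prod]
  simp only [map_sub, map_pow, RatFunc.algebraMap_X]
  rw [← h]
  unfold Dfull linProd monicFinset
  rw [Finset.prod_image (fun a _ b _ h => monicOf_injective j h), map_prod]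
  apply Finset.prod_congr rfl
  intro a _
  unfold monicOf
  rw [map_add, map_pow, map_sum, RatFunc.algebraMap_X]
  congr 1
  apply Finset.sum_congr rfl
  intro i _
  rw [map_mul, map_pow, RatFunc.algebraMap_X, RatFunc.algebraMap_C]
  rfl

/-- The Carlitz bracket `[j] = X^(q^j) - X`. -/
noncomputable def br (F : Type*) [Field F] [Fintype F] (j : ℕ) : F[X] :=
  X ^ (Fintype.card F ^ j) - X

theorem sub_pow_card_pow (f g : F[X]) (k : ℕ) :
    (f - g) ^ (Fintype.card F ^ k) = f ^ (Fintype.card F ^ k) - g ^ (Fintype.card F ^ k) := by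
  obtain ⟨p, hp⟩ := CharP.exists F
  have := hp
  have : Fact p.Prime := ⟨CharP.char_is_prime F p⟩
  obtain ⟨n, -, hn⟩ := FiniteField.card F p
  rw [hn, ← pow_mul]
  exact sub_pow_char_pow f g _

theorem Dfull_succ (j : ℕ) :
    Dfull F (j + 1) = br F (j + 1) * (Dfull F j) ^ (Fintype.card F) := by
  rw [Dfull_eq, Dfull_eq, Finset.prod_range_succ', ← Finset.prod_pow, mul_comm]
  unfold br
  rw [pow_zero, pow_one]
  congr 1
  apply Finset.prod_congr rfl
  intro k _
  have := sub_pow_card_pow (X ^ (Fintype.card F ^ j) : F[X]) (X ^ (Fintype.card F ^ k)) 1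
  rw [pow_one] at this
  rw [this, ← pow_mul, ← pow_mul, ← pow_succ, ← pow_succ]

theorem Dfull_zero : Dfull F 0 = 1 := by
  rw [Dfull_eq]; simp

theorem br_natDegree {j : ℕ} (hj : 1 ≤ j) : (br F j).natDegree = Fintype.card F ^ j := by
  unfold br
  have : 1 < Fintype.card F ^ j := Nat.one_lt_pow (by omega) Fintype.one_lt_card
  exact FiniteField.X_pow_card_sub_X_natDegree_eq F this

theorem br_ne_zero {j : ℕ} (hj : 1 ≤ j) : br F j ≠ 0 := by
  unfold br
  have : 1 < Fintype.card F ^ j := Nat.one_lt_pow (by omega) Fintype.one_lt_card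
  exact FiniteField.X_pow_card_sub_X_ne_zero F this

theorem Dfull_ne_zero (j : ℕ) : Dfull F j ≠ 0 := by
  unfold Dfull
  rw [Finset.prod_ne_zero_iff]
  intro f hf
  exact (mem_monicFinset.1 hf).1.ne_zero

/-- `D_{j,v}`: the product of all monic polynomials of degree `j` not divisible by `v`. -/
noncomputable def Dv (v : F[X]) (j : ℕ) : F[X] :=
  ∏ᶠ a ∈ {a : F[X] | a.Monic ∧ a.natDegree = j ∧ ¬ v ∣ a}, a

open Classical in
theorem Dv_eq_prod (v : F[X]) (j : ℕ) :
    Dv v j = ∏ a ∈ (monicFinset F j).filter (fun a => ¬ v ∣ a), a := by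
  unfold Dv
  rw [finprod_mem_eq_finite_toFinset_prod]
  rotate_left
  · exact ((monicFinset F j).finite_toSet.subset (by
      rintro a ⟨h1, h2, -⟩
      exact mem_monicFinset.2 ⟨h1, h2⟩))
  · apply Finset.prod_congr _ (fun _ _ => rfl)
    ext a
    simp only [Set.Finite.mem_toFinset, Finset.mem_filter, mem_monicFinset]
    exact and_assoc.symm

theorem Dv_eq_of_lt {v : F[X]} {j : ℕ} (hj : j < v.natDegree) :
    Dv v j = Dfull F j := by
  classical
  rw [Dv_eq_prod, Dfull]
  congr 1
  apply Finset.filter_true_of_mem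
  intro a ha hdvd
  have h := mem_monicFinset.1 ha
  have := natDegree_le_of_dvd hdvd h.1.ne_zero
  omega

theorem Dfull_eq_Dv_mul {v : F[X]} {j : ℕ} (hv : v.Monic) (hj : v.natDegree ≤ j) :
    Dfull F j = Dv v j * (v ^ (Fintype.card F ^ (j - v.natDegree)) * Dfull F (j - v.natDegree)) := by
  classical
  rw [Dv_eq_prod, Dfull, ← Finset.prod_filter_not_mul_prod_filter (monicFinset F j) (fun a => v ∣ a)]
  congr 1
  have : (monicFinset F j).filter (fun a => v ∣ a) =
      (monicFinset F (j - v.natDegree)).image (fun b => v * b) := by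
    ext a
    simp only [Finset.mem_filter, Finset.mem_image, mem_monicFinset]
    constructor
    · rintro ⟨⟨h1, h2⟩, b, rfl⟩
      have hb : b.Monic := hv.of_mul_monic_left h1
      refine ⟨b, ⟨hb, ?_⟩, rfl⟩
      rw [hv.natDegree_mul hb] at h2
      omega
    · rintro ⟨b, ⟨h1, h2⟩, rfl⟩
      refine ⟨⟨hv.mul h1, ?_⟩, dvd_mul_right _ _⟩
      rw [hv.natDegree_mul h1]
      omega
  rw [this, Finset.prod_image, Finset.prod_mul_distrib, Finset.prod_const, card_monicFinset]
  · rfl
  · intro a _ b _ h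
    exact mul_left_cancel₀ hv.ne_zero h

theorem Dv_ne_zero {v : F[X]} (j : ℕ) : Dv v j ≠ 0 := by
  classical
  rw [Dv_eq_prod, Finset.prod_ne_zero_iff]
  intro f hf
  exact (mem_monicFinset.1 (Finset.mem_filter.1 hf).1).1.ne_zero

theorem not_dvd_Dv {v : F[X]} (hv : Prime v) (j : ℕ) : ¬ v ∣ Dv v j := by
  classical
  rw [Dv_eq_prod, Prime.dvd_finsetProd_iff hv]
  rintro ⟨a, ha, hd⟩
  exact (Finset.mem_filter.1 ha).2 hd

/-- The recursion for `D_{j,v}`: `[j+1-d] D_{j+1,v} = [j+1] D_{j,v}^q` for `j ≥ d`. -/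
theorem Dv_succ {v : F[X]} {j : ℕ} (hv : v.Monic) (hj : v.natDegree ≤ j) :
    br F (j + 1 - v.natDegree) * Dv v (j + 1) = br F (j + 1) * (Dv v j) ^ (Fintype.card F) := by
  have h1 := Dfull_eq_Dv_mul hv hj
  have h2 := Dfull_eq_Dv_mul (j := j + 1) hv (by omega)
  have h3 := Dfull_succ (F := F) j
  have h4 := Dfull_succ (F := F) (j - v.natDegree)
  have hidx : j + 1 - v.natDegree = j - v.natDegree + 1 := by omega
  rw [hidx] at h2 ⊢
  rw [h2, h4, h1, mul_pow, mul_pow, ← pow_mul, ← pow_succ] at h3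
  have hne : v ^ (Fintype.card F ^ (j - v.natDegree + 1)) *
      (Dfull F (j - v.natDegree)) ^ (Fintype.card F) ≠ 0 :=
    mul_ne_zero (pow_ne_zero _ hv.ne_zero) (pow_ne_zero _ (Dfull_ne_zero _))
  apply mul_right_cancel₀ hne
  linear_combination h3

end Pool.Agent.Lib253687
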