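import Mathlib
import Pool.Agent.Lib_253687.Monic

/-!
The Cartier operator on polynomials and rational functions.
-/

namespace Pool.Agent.Lib253687

open Polynomial Finset

section Poly

variable {F : Type*} [Field F]

/-- Coefficient extraction `∑ a_n X^n ↦ ∑ a_{Qn+Q-1} X^n`. -/
noncomputable def cart (Q : ℕ) (f : F[X]) : F[X] := divX (contract Q (X * f))

theorem cart_coeff {Q : ℕ} (hQ : 1 ≤ Q) (f : F[X]) (n : ℕ) :
    (cart Q f).coeff n = f.coeff (Q * n + (Q - 1)) := by
  unfold cart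
  rw [coeff_divX, coeff_contract (by omega)]
  have : (n + 1) * Q = (Q * n + (Q - 1)) + 1 := by
    have : (n+1) * Q = Q * n + Q := by ring
    omega
  rw [this, coeff_X_mul]

theorem cart_add {Q : ℕ} (hQ : 1 ≤ Q) (f g : F[X]) : cart Q (f + g) = cart Q f + cart Q g := by
  ext n
  rw [coeff_add, cart_coeff hQ, cart_coeff hQ, cart_coeff hQ, coeff_add]

theorem cart_zero {Q : ℕ} (hQ : 1 ≤ Q) : cart Q (0 : F[X]) = 0 := by
  ext n
  rw [cart_coeff hQ]; simp

theorem cart_sum {Q : ℕ} (hQ : 1 ≤ Q) {ι : Type*} (s : Finset ι) (f : ι → F[X]) :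
    cart Q (∑ i ∈ s, f i) = ∑ i ∈ s, cart Q (f i) := by
  classical
  induction s using Finset.induction_on with
  | empty => simp [cart_zero hQ]
  | insert a s ha ih => rw [Finset.sum_insert ha, Finset.sum_insert ha, cart_add hQ, ih]

theorem cart_mul_expand {Q : ℕ} (hQ : 1 ≤ Q) (f g : F[X]) :
    cart Q (f * expand F Q g) = cart Q f * g := by
  unfold cart
  rw [← mul_assoc, contract_mul_expand (by omega)]
  have h1 : X * divX (contract Q (X * f)) = contract Q (X * f) := by
    have h := divX_mul_X_add (contract Q (X * f))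
    have h0 : (contract Q (X * f)).coeff 0 = 0 := by
      rw [coeff_contract (by omega)]
      simp
    rw [h0] at h
    simp only [map_zero, add_zero] at h
    rw [mul_comm, h]
  have h2 : divX (contract Q (X * f) * g) = divX (X * (divX (contract Q (X * f)) * g)) := by
    rw [← mul_assoc, h1]
  rw [h2]
  ext n
  rw [coeff_divX, coeff_X_mul]

theorem cart_natDegree_le {Q : ℕ} (hQ : 1 ≤ Q) (f : F[X]) :
    (cart Q f).natDegree ≤ f.natDegree / Q := by
  rw [natDegree_le_iff_coeff_eq_zero]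
  intro n hn
  rw [cart_coeff hQ]
  apply coeff_eq_zero_of_natDegree_lt
  rw [Nat.div_lt_iff_lt_mul (by omega)] at hn
  rw [mul_comm] at hn
  omega

theorem cart_eq_zero {Q : ℕ} (hQ : 1 ≤ Q) (f : F[X]) (hf : f.natDegree < Q - 1) :
    cart Q f = 0 := by
  ext n
  rw [cart_coeff hQ, coeff_zero]
  apply coeff_eq_zero_of_natDegree_lt
  omega

theorem cart_cart {Q R : ℕ} (hQ : 1 ≤ Q) (hR : 1 ≤ R) (f : F[X]) :
    cart Q (cart R f) = cart (R * Q) f := by
  ext n
  rw [cart_coeff hQ, cart_coeff hR, cart_coeff (Nat.mul_pos hR hQ)]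
  congr 1
  obtain ⟨Q', rfl⟩ : ∃ Q', Q = Q' + 1 := ⟨Q - 1, by omega⟩
  obtain ⟨R', rfl⟩ : ∃ R', R = R' + 1 := ⟨R - 1, by omega⟩
  have : (R' + 1) * (Q' + 1) - 1 = R' * Q' + R' + Q' := by
    have : (R' + 1) * (Q' + 1) = R' * Q' + R' + Q' + 1 := by ring
    omega
  rw [this]
  simp only [Nat.add_sub_cancel]
  ring

theorem exists_cart_ne_zero {Q : ℕ} (hQ : 1 ≤ Q) {f : F[X]} (hf : f ≠ 0) :
    ∃ s < Q, cart Q (X ^ s * f) ≠ 0 := by
  obtain ⟨k, hk⟩ : ∃ k, f.coeff k ≠ 0 := by
    by_contra h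
    push Not at h
    exact hf (by ext n; simp [h n])
  refine ⟨Q - 1 - k % Q, by omega, ?_⟩
  intro h
  have h2 := congrArg (fun g => g.coeff (k / Q)) h
  simp only [coeff_zero] at h2
  rw [cart_coeff hQ, coeff_X_pow_mul'] at h2
  have hmod : k % Q < Q := Nat.mod_lt _ (by omega)
  have hle : Q - 1 - k % Q ≤ Q * (k / Q) + (Q - 1) := by omega
  rw [if_pos hle] at h2
  have : Q * (k / Q) + (Q - 1) - (Q - 1 - k % Q) = k := by
    have := Nat.div_add_mod k Q
    omega
  rw [this] at h2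
  exact hk h2

end Poly

section Fin

variable {F : Type*} [Field F] [Fintype F]

theorem expand_card_pow (k : ℕ) (f : F[X]) :
    expand F (Fintype.card F ^ k) f = f ^ (Fintype.card F ^ k) := by
  induction k with
  | zero => simp
  | succ k ih =>
    rw [pow_succ, expand_mul, FiniteField.expand_card, map_pow, ih, ← pow_mul]

end Fin

end Pool.Agent.Lib253687
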