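import Mathlib
import Pool.Agent.Lib_253687.Cart

/-!
The Cartier operator and the derivation on rational functions.
-/

namespace Pool.Agent.Lib253687

open Polynomial Finset

variable {F : Type*} [Field F] [Fintype F]

theorem card_pow_pos (F : Type*) [Field F] [Fintype F] (k : ℕ) : 1 ≤ Fintype.card F ^ k :=
  Nat.one_le_iff_ne_zero.2 (pow_ne_zero _ Fintype.card_ne_zero)

theorem cart_mul_pow (k : ℕ) (f g : F[X]) :
    cart (Fintype.card F ^ k) (f * g ^ (Fintype.card F ^ k)) = cart (Fintype.card F ^ k) f * g := by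
  rw [← expand_card_pow, cart_mul_expand (card_pow_pos F k)]

/-- The embedding of polynomials into rational functions. -/
noncomputable abbrev ι (F : Type*) [Field F] : F[X] →+* RatFunc F := algebraMap F[X] (RatFunc F)

omit [Fintype F] in
theorem ι_ne_zero {a : F[X]} (ha : a ≠ 0) : ι F a ≠ 0 := by
  simpa using ha

omit [Fintype F] in
theorem exists_div (f : RatFunc F) : ∃ a b : F[X], b ≠ 0 ∧ f = ι F a / ι F b :=
  ⟨f.num, f.denom, f.denom_ne_zero, (RatFunc.num_div_denom f).symm⟩

omit [Fintype F] in
theorem exists_div₂ (f g : RatFunc F) : ∃ a b c : F[X], c ≠ 0 ∧ f = ι F a / ι F c ∧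
    g = ι F b / ι F c := by
  obtain ⟨a, b, hb, rfl⟩ := exists_div f
  obtain ⟨c, d, hd, rfl⟩ := exists_div g
  refine ⟨a * d, c * b, b * d, mul_ne_zero hb hd, ?_, ?_⟩
  · have := ι_ne_zero hb
    have := ι_ne_zero hd
    rw [map_mul, map_mul]
    field_simp
  · have := ι_ne_zero hb
    have := ι_ne_zero hd
    rw [map_mul, map_mul]
    field_simp

/-- The `q^k`-Cartier operator on `F(X)`. -/
noncomputable def cartK (k : ℕ) (f : RatFunc F) : RatFunc F :=
  f.liftOn' (fun a b => ι F
      (cart (Fintype.card F ^ k) (a * b ^ (Fintype.card F ^ k - 1))) / ι F b)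
    (by
      intro p r a hr ha
      have hQ := card_pow_pos F k
      obtain ⟨Q, hQ'⟩ : ∃ Q, Fintype.card F ^ k = Q + 1 := ⟨Fintype.card F ^ k - 1, by omega⟩
      have h1 : a * p * (a * r) ^ (Fintype.card F ^ k - 1) =
          (p * r ^ (Fintype.card F ^ k - 1)) * a ^ (Fintype.card F ^ k) := by
        rw [hQ']
        simp only [Nat.add_sub_cancel]
        ring
      rw [h1, cart_mul_pow, map_mul, map_mul]
      have ha' := ι_ne_zero ha
      have hr' := ι_ne_zero hr
      field_simp)

theorem cartK_div (k : ℕ) (a b : F[X]) :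
    cartK k (ι F a / ι F b) =
      ι F (cart (Fintype.card F ^ k) (a * b ^ (Fintype.card F ^ k - 1))) / ι F b := by
  unfold cartK
  rw [RatFunc.liftOn'_div]
  intro p
  by_cases h : Fintype.card F ^ k - 1 = 0
  · simp [cart_zero (card_pow_pos F k)]
  · simp [h, cart_zero (card_pow_pos F k)]

theorem cartK_poly (k : ℕ) (a : F[X]) :
    cartK k (ι F a) = ι F (cart (Fintype.card F ^ k) a) := by
  have := cartK_div k a 1
  simpa using this

theorem cartK_add (k : ℕ) (f g : RatFunc F) : cartK k (f + g) = cartK k f + cartK k g := by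
  obtain ⟨a, b, c, hc, rfl, rfl⟩ := exists_div₂ f g
  rw [← add_div, ← map_add, cartK_div, cartK_div, cartK_div, ← add_div, ← map_add, add_mul,
    cart_add (card_pow_pos F k)]

theorem cartK_pow_mul (k : ℕ) (f g : RatFunc F) :
    cartK k (g ^ (Fintype.card F ^ k) * f) = g * cartK k f := by
  obtain ⟨a, b, c, hc, rfl, rfl⟩ := exists_div₂ f g
  obtain ⟨Q, hQ'⟩ : ∃ Q, Fintype.card F ^ k = Q + 1 :=
    ⟨Fintype.card F ^ k - 1, by have := card_pow_pos F k; omega⟩
  have h1 : (ι F b / ι F c) ^ (Fintype.card F ^ k) * (ι F a / ι F c) =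
      ι F (b ^ (Fintype.card F ^ k) * a) / ι F (c ^ (Fintype.card F ^ k) * c) := by
    rw [map_mul, map_mul, map_pow, map_pow, div_pow]
    have := ι_ne_zero hc
    field_simp
  rw [h1, cartK_div, cartK_div]
  have h2 : b ^ (Fintype.card F ^ k) * a *
      (c ^ (Fintype.card F ^ k) * c) ^ (Fintype.card F ^ k - 1) =
      (a * c ^ (Fintype.card F ^ k - 1)) * (b * c ^ (Fintype.card F ^ k - 1)) ^
        (Fintype.card F ^ k) := by
    rw [hQ']
    simp only [Nat.add_sub_cancel]
    ring
  rw [h2, cart_mul_pow]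
  have h3 : c ^ (Fintype.card F ^ k) * c = c ^ (Fintype.card F ^ k - 1) * (c * c) := by
    rw [hQ']
    simp only [Nat.add_sub_cancel]
    ring
  rw [h3]
  simp only [map_mul]
  have := ι_ne_zero hc
  have h4 := ι_ne_zero (pow_ne_zero (Fintype.card F ^ k - 1) hc)
  field_simp

theorem cartK_cartK (k l : ℕ) (f : RatFunc F) : cartK k (cartK l f) = cartK (l + k) f := by
  obtain ⟨a, b, hb, rfl⟩ := exists_div f
  have h1 := card_pow_pos F k
  have h2 := card_pow_pos F l
  have key : cart (Fintype.card F ^ k) (cart (Fintype.card F ^ l)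
      (a * b ^ (Fintype.card F ^ l - 1)) * b ^ (Fintype.card F ^ k - 1)) =
      cart (Fintype.card F ^ (l + k)) (a * b ^ (Fintype.card F ^ (l + k) - 1)) := by
    rw [← cart_mul_pow l, cart_cart h1 h2, ← pow_add]
    have hexp : a * b ^ (Fintype.card F ^ l - 1) *
        (b ^ (Fintype.card F ^ k - 1)) ^ (Fintype.card F ^ l) =
        a * b ^ (Fintype.card F ^ (l + k) - 1) := by
      rw [mul_assoc, ← pow_mul, ← pow_add]
      have : Fintype.card F ^ l - 1 + (Fintype.card F ^ k - 1) * Fintype.card F ^ l =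
          Fintype.card F ^ (l + k) - 1 := by
        rw [Nat.sub_mul, one_mul, pow_add, mul_comm (Fintype.card F ^ l) (Fintype.card F ^ k)]
        have : Fintype.card F ^ l ≤ Fintype.card F ^ k * Fintype.card F ^ l :=
          Nat.le_mul_of_pos_left _ h1
        omega
      rw [this]
    rw [hexp]
  rw [cartK_div, cartK_div, cartK_div, key]

theorem cartK_one_iterate (k : ℕ) (f : RatFunc F) : (cartK 1)^[k] f = cartK k f := by
  induction k generalizing f with
  | zero =>
    obtain ⟨a, b, hb, rfl⟩ := exists_div f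
    rw [cartK_div]
    simp only [Function.iterate_zero, id_eq]
    congr 2
    ext n
    rw [cart_coeff (by simp)]
    simp
  | succ k ih =>
    rw [Function.iterate_succ_apply, ih, cartK_cartK, add_comm]

/-- `C^N (B / [j]) = B^(q^(j-N)) / [j]` for `deg B < q^N` and `j ≥ N`. -/
theorem cartK_br {N j : ℕ} (hj : N ≤ j) (hj1 : 1 ≤ j) (B : F[X])
    (hB : B.natDegree < Fintype.card F ^ N) :
    cartK N (ι F B / ι F (br F j)) =
      ι F (B ^ (Fintype.card F ^ (j - N))) / ι F (br F j) := by
  rw [cartK_div]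
  congr 2
  have hQ := card_pow_pos F N
  set y : F[X] := X ^ (Fintype.card F ^ (j - N)) with hy
  have hyQ : y ^ (Fintype.card F ^ N) = X ^ (Fintype.card F ^ j) := by
    rw [hy, ← pow_mul, ← pow_add]
    congr 2
    omega
  -- geometric sum
  have hgeom : (br F j) ^ (Fintype.card F ^ N - 1) =
      ∑ i ∈ range (Fintype.card F ^ N), (y ^ (Fintype.card F ^ N)) ^ i *
        X ^ (Fintype.card F ^ N - 1 - i) := by
    apply mul_right_cancel₀ (br_ne_zero (F := F) hj1)
    rw [← pow_succ, Nat.sub_add_cancel hQ]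
    unfold br
    rw [sub_pow_card_pow]
    rw [← hyQ]
    rw [(Commute.all _ _).geom_sum₂_mul]
  rw [hgeom, Finset.mul_sum, cart_sum hQ]
  have hterm : ∀ i ∈ range (Fintype.card F ^ N),
      cart (Fintype.card F ^ N) (B * ((y ^ (Fintype.card F ^ N)) ^ i *
        X ^ (Fintype.card F ^ N - 1 - i))) = C (B.coeff i) * y ^ i := by
    intro i hi
    rw [Finset.mem_range] at hi
    have h1 : B * ((y ^ (Fintype.card F ^ N)) ^ i * X ^ (Fintype.card F ^ N - 1 - i)) =
      (B * X ^ (Fintype.card F ^ N - 1 - i)) * (y ^ i) ^ (Fintype.card F ^ N) := by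
      rw [pow_right_comm]
      ring
    rw [h1, cart_mul_pow]
    congr 1
    ext n
    rw [cart_coeff hQ, coeff_mul_X_pow', coeff_C]
    rw [if_pos (by omega)]
    by_cases hn : n = 0
    · subst hn
      rw [if_pos rfl]
      congr 1
      omega
    · rw [if_neg hn]
      apply coeff_eq_zero_of_natDegree_lt
      have : Fintype.card F ^ N ≤ Fintype.card F ^ N * n := Nat.le_mul_of_pos_right _ (by omega)
      omega
  rw [Finset.sum_congr rfl hterm]
  have h2 : B ^ (Fintype.card F ^ (j - N)) = B.comp y := by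
    rw [← expand_card_pow, expand_eq_comp_X_pow]
  rw [h2, comp_eq_sum_left, sum_over_range' _ _ _ hB]
  intro n
  simp

theorem cartK_br_small {N j : ℕ} (hj : j < N) (hj1 : 1 ≤ j) (B : F[X])
    (hB : B.natDegree < Fintype.card F ^ N) (hd : br F j ∣ B) :
    cartK N (ι F B / ι F (br F j)) = 0 := by
  obtain ⟨g, rfl⟩ := hd
  have hne := ι_ne_zero (br_ne_zero (F := F) hj1)
  rw [map_mul, mul_div_cancel_left₀ _ hne, cartK_poly, cart_eq_zero (card_pow_pos F N), map_zero]
  by_cases hg : g = 0
  · subst hg
    simp only [natDegree_zero]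
    have : 1 < Fintype.card F ^ N := Nat.one_lt_pow (by omega) Fintype.one_lt_card
    omega
  · rw [natDegree_mul (br_ne_zero hj1) hg, br_natDegree hj1] at hB
    have := card_pow_pos F j
    have : Fintype.card F ≤ Fintype.card F ^ j := Nat.le_self_pow (by omega) _
    have : 1 < Fintype.card F := Fintype.one_lt_card
    omega

/-- The derivation `d/dX` on `F(X)`. -/
noncomputable def derK (f : RatFunc F) : RatFunc F :=
  f.liftOn' (fun a b => ι F (derivative a * b - a * derivative b) / ι F (b ^ 2))
    (by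
      intro p r a hr ha
      have h1 : derivative (a * p) * (a * r) - (a * p) * derivative (a * r) =
          a ^ 2 * (derivative p * r - p * derivative r) := by
        simp only [derivative_mul]
        ring
      rw [h1, mul_pow, map_mul, map_mul]
      have ha' := ι_ne_zero (pow_ne_zero 2 ha)
      have hr' := ι_ne_zero (pow_ne_zero 2 hr)
      field_simp)

omit [Fintype F] in
theorem derK_div (a b : F[X]) :
    derK (ι F a / ι F b) = ι F (derivative a * b - a * derivative b) / ι F (b ^ 2) := by
  unfold derK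
  rw [RatFunc.liftOn'_div]
  intro p
  simp

omit [Fintype F] in
theorem derK_poly (a : F[X]) : derK (ι F a) = ι F (derivative a) := by
  have := derK_div a 1
  simpa using this

omit [Fintype F] in
theorem derK_add (f g : RatFunc F) : derK (f + g) = derK f + derK g := by
  obtain ⟨a, b, c, hc, rfl, rfl⟩ := exists_div₂ f g
  rw [← add_div, ← map_add, derK_div, derK_div, derK_div, ← add_div, ← map_add]
  congr 2
  simp only [derivative_add]
  ring

omit [Fintype F] in
theorem derK_mul (f g : RatFunc F) : derK (f * g) = derK f * g + f * derK g := by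
  obtain ⟨a, b, c, hc, rfl, rfl⟩ := exists_div₂ f g
  have h1 : (ι F a / ι F c) * (ι F b / ι F c) = ι F (a * b) / ι F (c * c) := by
    rw [map_mul, map_mul, div_mul_div_comm]
  rw [h1, derK_div, derK_div, derK_div]
  simp only [derivative_mul, map_sub, map_mul, map_add, map_pow]
  have := ι_ne_zero hc
  field_simp
  ring

end Pool.Agent.Lib253687
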