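import Mathlib
import Pool.Agent.Lib_253687.CartK

/-!
Abstract Christol-type finiteness for a field with a Cartier operator.
-/

namespace Pool.Agent.Lib253687

open Polynomial Finset

variable {F : Type*} [Field F] [Fintype F]

section Ore

variable {L : Type*} [Field L] [Algebra F[X] L] [Algebra (RatFunc F) L]
  [IsScalarTower F[X] (RatFunc F) L]

/-- An additive operator on `L` which is `q`-inverse-linear and extends `cart q`. -/
structure CartOp (F : Type*) [Field F] [Fintype F] (L : Type*) [Field L] [Algebra F[X] L] where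
  toFun : L → L
  map_add : ∀ x y, toFun (x + y) = toFun x + toFun y
  map_pow_mul : ∀ g f, toFun (g ^ (Fintype.card F) * f) = g * toFun f
  map_poly : ∀ a : F[X], toFun (algebraMap F[X] L a) = algebraMap F[X] L (cart (Fintype.card F) a)

namespace CartOp

variable (C : CartOp F L)

include C in
omit [Algebra (RatFunc F) L] [IsScalarTower F[X] (RatFunc F) L] in
theorem map_zero : C.toFun 0 = 0 := by
  have := C.map_add 0 0
  simpa using this

omit [Algebra (RatFunc F) L] [IsScalarTower F[X] (RatFunc F) L] in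
theorem map_sum {ι' : Type*} (s : Finset ι') (f : ι' → L) :
    C.toFun (∑ i ∈ s, f i) = ∑ i ∈ s, C.toFun (f i) := by
  classical
  induction s using Finset.induction_on with
  | empty => simp [C.map_zero]
  | insert a s ha ih => rw [Finset.sum_insert ha, Finset.sum_insert ha, C.map_add, ih]

omit [Algebra (RatFunc F) L] [IsScalarTower F[X] (RatFunc F) L] in
theorem map_poly_mul_pow (a : F[X]) (g : L) :
    C.toFun (algebraMap F[X] L a * g ^ (Fintype.card F)) =
      algebraMap F[X] L (cart (Fintype.card F) a) * g := by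
  rw [mul_comm, C.map_pow_mul, C.map_poly, mul_comm]

end CartOp

theorem exists_ore_aux (z : L) (hz : IsAlgebraic (RatFunc F) z) :
    ∃ (m : ℕ) (A : ℕ → F[X]), (∃ n, n ≤ m ∧ A n ≠ 0) ∧
      ∑ i ∈ range (m + 1), algebraMap F[X] L (A i) * z ^ (Fintype.card F ^ i) = 0 := by
  classical
  have hint : IsIntegral (RatFunc F) z := hz.isIntegral
  have : FiniteDimensional (RatFunc F) (IntermediateField.adjoin (RatFunc F) {z}) :=
    IntermediateField.adjoin.finiteDimensional hint
  let z' : IntermediateField.adjoin (RatFunc F) {z} :=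
    ⟨z, IntermediateField.mem_adjoin_simple_self _ z⟩
  have h1 : ¬ LinearIndependent (RatFunc F) (fun i : ℕ => z' ^ (Fintype.card F ^ i)) := by
    intro h
    exact @not_finite ℕ _ h.finite
  rw [← LinearIndependent.iff_fractionRing F[X] (RatFunc F), not_linearIndependent_iff] at h1
  obtain ⟨s, g, hsum, n, hn, hgn⟩ := h1
  refine ⟨s.sup id, fun i => if i ∈ s then g i else 0, ⟨n, Finset.le_sup (f := id) hn, ?_⟩, ?_⟩
  · simp only [hn, ↓reduceIte]; exact hgn
  · have h2 := congrArg (fun x : IntermediateField.adjoin (RatFunc F) {z} => (x : L)) hsum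
    rw [← Finset.sum_subset (s₁ := s)]
    · rw [← ZeroMemClass.coe_zero (IntermediateField.adjoin (RatFunc F) {z}), ← h2]
      push_cast
      apply Finset.sum_congr rfl
      intro i hi
      simp only [hi, ↓reduceIte]
      rw [Algebra.smul_def, IsScalarTower.algebraMap_apply F[X] (RatFunc F) L]
    · intro i hi
      rw [Finset.mem_range]
      have := Finset.le_sup (f := id) hi
      simp only [id_eq] at this
      omega
    · intro i _ hi
      simp [hi]

omit [Algebra (RatFunc F) L] [IsScalarTower F[X] (RatFunc F) L] in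
/-- Shifting the lowest nonzero index of a relation down to `0`. -/
theorem ore_shift (C : CartOp F L) (z : L) (n : ℕ) : ∀ (m : ℕ) (A : ℕ → F[X]),
    (∀ i < n, A i = 0) → n ≤ m → A n ≠ 0 →
      ∑ i ∈ range (m + 1), algebraMap F[X] L (A i) * z ^ (Fintype.card F ^ i) = 0 →
    ∃ (m : ℕ) (A : ℕ → F[X]), A 0 ≠ 0 ∧
      ∑ i ∈ range (m + 1), algebraMap F[X] L (A i) * z ^ (Fintype.card F ^ i) = 0 := by
  induction n with
  | zero =>
    intro m A _ _ h0 hsum
    exact ⟨m, A, h0, hsum⟩
  | succ n ih =>
    intro m A hlow hnm hn hsum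
    obtain ⟨m, rfl⟩ : ∃ m', m = m' + 1 := ⟨m - 1, by omega⟩
    have hq : 1 ≤ Fintype.card F := Fintype.card_pos
    obtain ⟨s, hs, hne⟩ := exists_cart_ne_zero hq hn
    apply ih m (fun i => cart (Fintype.card F) (X ^ s * A (i + 1)))
    · intro i hi
      rw [hlow (i+1) (by omega), mul_zero, cart_zero hq]
    · omega
    · exact hne
    · have h1 : ∑ i ∈ range (m + 1 + 1),
          algebraMap F[X] L (X ^ s * A i) * z ^ (Fintype.card F ^ i) = 0 := by
        have := congrArg (fun x => algebraMap F[X] L (X ^ s) * x) hsum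
        simp only [mul_zero, Finset.mul_sum] at this
        rw [← this]
        apply Finset.sum_congr rfl
        intro i _
        rw [map_mul]
        ring
      rw [Finset.sum_range_succ'] at h1
      rw [hlow 0 (by omega), mul_zero, map_zero, zero_mul, add_zero] at h1
      have h2 := congrArg C.toFun h1
      rw [C.map_zero, C.map_sum] at h2
      rw [← h2]
      apply Finset.sum_congr rfl
      intro i _
      rw [pow_succ (Fintype.card F), pow_mul, C.map_poly_mul_pow]

theorem exists_ore (C : CartOp F L) (z : L) (hz : IsAlgebraic (RatFunc F) z) :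
    ∃ (m : ℕ) (A : ℕ → F[X]), A 0 ≠ 0 ∧
      ∑ i ∈ range (m + 1), algebraMap F[X] L (A i) * z ^ (Fintype.card F ^ i) = 0 := by
  classical
  obtain ⟨m, A, hex, hsum⟩ := exists_ore_aux (F := F) z hz
  have hspec := Nat.find_spec hex
  apply ore_shift C z (Nat.find hex) m A _ hspec.1 hspec.2 hsum
  intro i hi
  by_contra h
  exact Nat.find_min hex hi ⟨by omega, h⟩

/-- The set of combinations `∑ B_i S^(q^i)` with `deg B_i ≤ M`. -/
def WSet (F : Type*) [Field F] [Fintype F] {L : Type*} [Field L] [Algebra F[X] L]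
    (S : L) (m M : ℕ) : Set L :=
  {w | ∃ B : ℕ → F[X], (∀ i, (B i).natDegree ≤ M) ∧
    w = ∑ i ∈ range (m + 1), algebraMap F[X] L (B i) * S ^ (Fintype.card F ^ i)}

omit [Algebra (RatFunc F) L] [IsScalarTower F[X] (RatFunc F) L] in
theorem WSet_mono (S : L) (m : ℕ) {M M' : ℕ} (h : M ≤ M') : WSet F S m M ⊆ WSet F S m M' := by
  rintro w ⟨B, hB, rfl⟩
  exact ⟨B, fun i => (hB i).trans h, rfl⟩

omit [Algebra (RatFunc F) L] [IsScalarTower F[X] (RatFunc F) L] in
theorem WSet_finite (S : L) (m M : ℕ) : (WSet F S m M).Finite := by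
  have hfin : Finite (degreeLT F (M + 1)) :=
    Finite.of_equiv _ (degreeLTEquiv F (M + 1)).toEquiv.symm
  have : (WSet F S m M) ⊆ Set.range (fun B : Fin (m + 1) → degreeLT F (M + 1) =>
      ∑ i : Fin (m + 1), algebraMap F[X] L (B i : F[X]) * S ^ (Fintype.card F ^ (i : ℕ))) := by
    rintro w ⟨B, hB, rfl⟩
    refine ⟨fun i => ⟨B i, ?_⟩, ?_⟩
    · rw [mem_degreeLT]
      apply lt_of_le_of_lt degree_le_natDegree
      have := hB i
      exact_mod_cast Nat.lt_succ_of_le this
    · simp only
      rw [Finset.sum_range]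
  exact (Set.finite_range _).subset this

omit [Algebra (RatFunc F) L] [IsScalarTower F[X] (RatFunc F) L] in
theorem WSet_step (C : CartOp F L) (S : L) (m : ℕ) (E : ℕ → F[X])
    (hS : S = ∑ i ∈ range m, algebraMap F[X] L (E (i + 1)) * S ^ (Fintype.card F ^ (i + 1)))
    (e : ℕ) (he : ∀ i, (E i).natDegree ≤ e) (M : ℕ) {w : L} (hw : w ∈ WSet F S m M) :
    C.toFun w ∈ WSet F S m ((M + e) / Fintype.card F) := by
  obtain ⟨B, hB, rfl⟩ := hw
  have hq : 1 ≤ Fintype.card F := Fintype.card_pos
  have h1 : ∑ i ∈ range (m + 1), algebraMap F[X] L (B i) * S ^ (Fintype.card F ^ i) =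
      ∑ i ∈ range m, algebraMap F[X] L (B (i + 1) + B 0 * E (i + 1)) *
        (S ^ (Fintype.card F ^ i)) ^ (Fintype.card F) := by
    rw [Finset.sum_range_succ', pow_zero, pow_one]
    have h0 : algebraMap F[X] L (B 0) * S = ∑ i ∈ range m, algebraMap F[X] L (B 0) *
        (algebraMap F[X] L (E (i + 1)) * S ^ (Fintype.card F ^ (i + 1))) := by
      rw [← Finset.mul_sum, ← hS]
    rw [h0, ← Finset.sum_add_distrib]
    apply Finset.sum_congr rfl
    intro i _
    rw [map_add, map_mul, pow_succ (Fintype.card F), pow_mul]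
    ring
  rw [h1, C.map_sum]
  refine ⟨fun i => if i < m then cart (Fintype.card F) (B (i + 1) + B 0 * E (i + 1)) else 0, ?_, ?_⟩
  · intro i
    simp only
    split_ifs
    · apply (cart_natDegree_le hq _).trans
      apply Nat.div_le_div_right
      apply (natDegree_add_le _ _).trans
      apply max_le
      · have := hB (i+1); omega
      · apply natDegree_mul_le.trans
        have := hB 0
        have := he (i+1)
        omega
    · simp
  · rw [Finset.sum_range_succ]
    simp only [lt_self_iff_false, ↓reduceIte, map_zero, zero_mul, add_zero]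
    apply Finset.sum_congr rfl
    intro i hi
    rw [Finset.mem_range] at hi
    rw [if_pos hi, C.map_poly_mul_pow]

omit [Algebra (RatFunc F) L] [IsScalarTower F[X] (RatFunc F) L] in
theorem WSet_iter (C : CartOp F L) (S : L) (m : ℕ) (E : ℕ → F[X])
    (hS : S = ∑ i ∈ range m, algebraMap F[X] L (E (i + 1)) * S ^ (Fintype.card F ^ (i + 1)))
    (e : ℕ) (he : ∀ i, (E i).natDegree ≤ e) (a N : ℕ) :
    ∀ {w : L}, w ∈ WSet F S m (Fintype.card F ^ N + a + e) →
    (C.toFun)^[N] w ∈ WSet F S m (1 + a + e) := by
  induction N with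
  | zero => intro w hw; simpa using hw
  | succ N ih =>
    intro w hw
    rw [Function.iterate_succ_apply]
    apply ih
    apply WSet_mono _ _ _ (WSet_step C S m E hS e he _ hw)
    have hq : 2 ≤ Fintype.card F := Fintype.one_lt_card
    rw [pow_succ]
    apply Nat.div_le_of_le_mul
    nlinarith [Nat.zero_le a, Nat.zero_le e]

/-- **Finiteness**: for `z` algebraic over `F(X)`, the elements `C^N (B z)`, `deg B ≤ q^N`, lie in
a fixed finite set. -/
theorem finite_orbit (C : CartOp F L) (z : L) (hz : IsAlgebraic (RatFunc F) z) :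
    ∃ W : Set L, W.Finite ∧ ∀ (N : ℕ) (B : F[X]), B.natDegree ≤ Fintype.card F ^ N →
      (C.toFun)^[N] (algebraMap F[X] L B * z) ∈ W := by
  obtain ⟨m, A, hA0, hsum⟩ := exists_ore C z hz
  have hinj : Function.Injective (algebraMap F[X] L) := by
    rw [IsScalarTower.algebraMap_eq F[X] (RatFunc F) L]
    exact (algebraMap (RatFunc F) L).injective.comp (IsFractionRing.injective F[X] (RatFunc F))
  have hA0' : algebraMap F[X] L (A 0) ≠ 0 := by
    rw [Ne, map_eq_zero_iff _ hinj]; exact hA0
  set S := z / algebraMap F[X] L (A 0) with hSdef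
  have hzS : z = algebraMap F[X] L (A 0) * S := by
    rw [hSdef]; field_simp
  set E : ℕ → F[X] := fun i => - (A i * (A 0) ^ (Fintype.card F ^ i - 2)) with hE
  have hS : S = ∑ i ∈ range m, algebraMap F[X] L (E (i + 1)) *
      S ^ (Fintype.card F ^ (i + 1)) := by
    rw [Finset.sum_range_succ', pow_zero, pow_one] at hsum
    have h2 : ∑ i ∈ range m, algebraMap F[X] L (A (i + 1)) * z ^ (Fintype.card F ^ (i + 1)) =
        - (algebraMap F[X] L (A 0))^2 * ∑ i ∈ range m, algebraMap F[X] L (E (i + 1)) *
          S ^ (Fintype.card F ^ (i + 1)) := by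
      rw [Finset.mul_sum]
      apply Finset.sum_congr rfl
      intro i _
      have h3 : 2 ≤ Fintype.card F ^ (i + 1) := by
        have := Nat.lt_pow_self (n := i+1) (Fintype.one_lt_card (α := F))
        have h4 : Fintype.card F ≤ Fintype.card F ^ (i+1) := Nat.le_self_pow (by omega) _
        have h5 : 2 ≤ Fintype.card F := Fintype.one_lt_card
        omega
      obtain ⟨r, hr⟩ : ∃ r, Fintype.card F ^ (i + 1) = r + 2 := ⟨Fintype.card F ^ (i+1) - 2, by omega⟩
      rw [hE]
      simp only
      rw [hr, hzS]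
      simp only [Nat.add_sub_cancel, map_neg, map_mul, map_pow]
      ring
    rw [h2] at hsum
    have h6 : (algebraMap F[X] L (A 0))^2 * (S - ∑ i ∈ range m, algebraMap F[X] L (E (i + 1)) *
          S ^ (Fintype.card F ^ (i + 1))) = 0 := by
      rw [← hsum, hzS]; ring
    have h7 := (mul_eq_zero.1 h6).resolve_left (pow_ne_zero 2 hA0')
    linear_combination h7
  -- bound on degrees of E; only indices ≤ m matter
  set e := (range (m + 1)).sup (fun i => (E i).natDegree) with he
  set E' : ℕ → F[X] := fun i => if i ≤ m then E i else 0 with hE'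
  have hS' : S = ∑ i ∈ range m, algebraMap F[X] L (E' (i + 1)) *
      S ^ (Fintype.card F ^ (i + 1)) := by
    conv_lhs => rw [hS]
    apply Finset.sum_congr rfl
    intro i hi
    rw [Finset.mem_range] at hi
    rw [hE']
    simp only
    rw [if_pos (by omega)]
  have he' : ∀ i, (E' i).natDegree ≤ e := by
    intro i
    rw [hE']
    simp only
    split_ifs with h
    · rw [he]
      exact Finset.le_sup (f := fun i => (E i).natDegree) (by rw [Finset.mem_range]; omega)
    · simp
  refine ⟨WSet F S m (1 + (A 0).natDegree + e), WSet_finite S m _, ?_⟩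
  intro N B hB
  apply WSet_iter C S m E' hS' e he'
  refine ⟨fun i => if i = 0 then B * A 0 else 0, ?_, ?_⟩
  · intro i
    simp only
    split_ifs
    · apply natDegree_mul_le.trans
      omega
    · simp
  · rw [Finset.sum_eq_single 0]
    · simp only [↓reduceIte, map_mul, pow_zero, pow_one]
      rw [hzS]; ring
    · intro i _ hi
      simp [hi]
    · simp

end Ore

end Pool.Agent.Lib253687
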