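import Mathlib
import Pool.Agent.Lib_253687.Ore

/-!
The `v`-adic completion of `F(X)`; extension of the Cartier operator.
-/

namespace Pool.Agent.Lib253687

open Polynomial Finset IsDedekindDomain Filter Topology WithZero

variable {F : Type*} [Field F] [Fintype F]

/-- The completion. -/
abbrev Lw {F : Type*} [Field F] (w : HeightOneSpectrum F[X]) := w.adicCompletion (RatFunc F)

/-- The embedding of `F(X)` in its completion. -/
noncomputable abbrev iL {F : Type*} [Field F] (w : HeightOneSpectrum F[X]) : RatFunc F →+* Lw w :=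
  algebraMap (RatFunc F) (Lw w)

/-- The valuation of a uniformizer. -/
noncomputable def ep : ℤᵐ⁰ := exp (-1 : ℤ)

theorem ep_pow (m : ℕ) : ep ^ m = exp (-(m : ℤ)) := by
  unfold ep
  rw [← exp_nsmul]
  simp

theorem ep_pos : 0 < ep := by
  unfold ep
  exact zero_lt_iff.2 exp_ne_zero

theorem ep_ne_zero : ep ≠ 0 := ep_pos.ne'

theorem ep_lt_one : ep < 1 := by
  unfold ep
  rw [← exp_zero, exp_lt_exp]
  norm_num

theorem ep_pow_lt {m n : ℕ} (h : m < n) : ep ^ n < ep ^ m := by
  rw [ep_pow, ep_pow, exp_lt_exp]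
  omega

theorem ep_pow_le {m n : ℕ} (h : m ≤ n) : ep ^ n ≤ ep ^ m := by
  rw [ep_pow, ep_pow, exp_le_exp]
  omega

theorem exists_ep_pow_lt {g : ℤᵐ⁰} (hg : g ≠ 0) : ∃ m : ℕ, ep ^ m < g := by
  lift g to ℤ using hg
  refine ⟨(1 - g).toNat, ?_⟩
  rw [ep_pow, exp_lt_exp]
  omega

section val

omit [Fintype F]

variable (w : HeightOneSpectrum F[X])

theorem val_iL (k : RatFunc F) : Valued.v (iL w k) = w.valuation (RatFunc F) k := by
  exact HeightOneSpectrum.valuedAdicCompletion_eq_valuation' w k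

variable {w} {v : F[X]}

theorem val_v (hw : w.asIdeal = Ideal.span {v}) (hv : v ≠ 0) :
    w.valuation (RatFunc F) (ι F v) = ep := by
  rw [HeightOneSpectrum.valuation_of_algebraMap, HeightOneSpectrum.intValuation_singleton w hv hw]
  rfl

theorem val_poly_le_one (a : F[X]) : w.valuation (RatFunc F) (ι F a) ≤ 1 :=
  HeightOneSpectrum.valuation_le_one w a

theorem val_poly_eq_one (hw : w.asIdeal = Ideal.span {v}) {a : F[X]} (ha : ¬ v ∣ a) :
    w.valuation (RatFunc F) (ι F a) = 1 := by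
  rw [HeightOneSpectrum.valuation_eq_one_iff_notMem, hw, Ideal.mem_span_singleton]
  exact ha

theorem val_le_one_exists (hw : w.asIdeal = Ideal.span {v}) {k : RatFunc F}
    (hk : w.valuation (RatFunc F) k ≤ 1) :
    ∃ a b : F[X], ¬ v ∣ b ∧ b ≠ 0 ∧ k = ι F a / ι F b := by
  obtain ⟨n, ⟨d, hd⟩, h⟩ := HeightOneSpectrum.exists_primeCompl_mul_eq_of_integer w k hk
  replace hd : d ∉ w.asIdeal := hd
  have hd0 : d ≠ 0 := by
    intro h0
    rw [h0] at hd
    exact hd (Ideal.zero_mem _)
  refine ⟨n, d, ?_, hd0, ?_⟩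
  · rw [hw, Ideal.mem_span_singleton] at hd
    exact hd
  · rw [eq_div_iff (ι_ne_zero hd0)]
    exact h

theorem val_le_ep_pow (hw : w.asIdeal = Ideal.span {v}) (hv : v ≠ 0) {k : RatFunc F} {m : ℕ}
    (hk : w.valuation (RatFunc F) k ≤ ep ^ m) :
    ∃ g : RatFunc F, w.valuation (RatFunc F) g ≤ 1 ∧ k = (ι F v) ^ m * g := by
  have hv' := ι_ne_zero (F := F) hv
  refine ⟨k / (ι F v) ^ m, ?_, ?_⟩
  · rw [map_div₀, map_pow, val_v hw hv]
    exact div_le_one_of_le₀ hk zero_le
  · field_simp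

end val

section contin

variable {w : HeightOneSpectrum F[X]} {v : F[X]}

theorem val_cartK (hw : w.asIdeal = Ideal.span {v}) (hv : v ≠ 0) {k : RatFunc F} {m : ℕ}
    (hk : w.valuation (RatFunc F) k ≤ ep ^ (Fintype.card F * m)) :
    w.valuation (RatFunc F) (cartK 1 k) ≤ ep ^ m := by
  obtain ⟨g, hg, rfl⟩ := val_le_ep_pow hw hv hk
  obtain ⟨a, b, hb, hb0, rfl⟩ := val_le_one_exists hw hg
  rw [mul_comm (Fintype.card F) m, pow_mul]
  have := cartK_pow_mul 1 (ι F a / ι F b) ((ι F v) ^ m)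
  rw [pow_one] at this
  rw [this, cartK_div, map_mul, map_pow, val_v hw hv, map_div₀, val_poly_eq_one hw hb, div_one]
  exact mul_le_of_le_one_right' (val_poly_le_one _)

omit [Fintype F] in
theorem val_derK (hw : w.asIdeal = Ideal.span {v}) (hv : v ≠ 0) {k : RatFunc F} {m : ℕ}
    (hk : w.valuation (RatFunc F) k ≤ ep ^ (m + 1)) :
    w.valuation (RatFunc F) (derK k) ≤ ep ^ m := by
  obtain ⟨g, hg, rfl⟩ := val_le_ep_pow hw hv hk
  have hprime : ∀ a b : F[X], ¬ v ∣ a → ¬ v ∣ b → ¬ v ∣ a * b := by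
    intro a b ha hb hab
    have hp : w.asIdeal.IsPrime := w.isPrime
    rw [hw] at hp
    have : a * b ∈ Ideal.span {v} := Ideal.mem_span_singleton.2 hab
    rcases hp.mem_or_mem this with h | h
    · exact ha (Ideal.mem_span_singleton.1 h)
    · exact hb (Ideal.mem_span_singleton.1 h)
  obtain ⟨a, b, hb, hb0, rfl⟩ := val_le_one_exists hw hg
  rw [derK_mul, ← map_pow, derK_poly, derK_div]
  apply (Valuation.map_add _ _ _).trans
  apply max_le
  · rw [map_mul]
    have h1 : derivative (v ^ (m + 1)) = v ^ m * ((m + 1 : ℕ) * derivative v) := by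
      rw [derivative_pow_succ]
      simp
      ring
    rw [h1, map_mul, map_mul, map_pow, map_pow, val_v hw hv, mul_assoc]
    apply mul_le_of_le_one_right'
    exact mul_le_one' (val_poly_le_one _) hg
  · rw [map_mul, map_pow, map_pow, val_v hw hv, map_div₀, pow_succ, mul_assoc]
    apply mul_le_of_le_one_right'
    rw [pow_two, val_poly_eq_one hw (hprime _ _ hb hb), div_one]
    exact mul_le_one' ep_lt_one.le (val_poly_le_one _)

end contin

section topology

variable {L : Type*} [Field L] [Valued L ℤᵐ⁰]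

theorem mem_nhds_zero_iff' {π : L} (hπ : Valued.v π = ep) {s : Set L} :
    s ∈ 𝓝 (0 : L) ↔ ∃ m : ℕ, {x | Valued.v x ≤ ep ^ m} ⊆ s := by
  rw [Valued.mem_nhds_zero]
  constructor
  · rintro ⟨γ, hγ⟩
    have hγ0 : MonoidWithZeroHom.ValueGroup₀.embedding γ.1 ≠ (0 : ℤᵐ⁰) := by
      intro h
      rw [map_eq_zero] at h
      exact γ.ne_zero h
    obtain ⟨m, hm⟩ := exists_ep_pow_lt hγ0
    refine ⟨m, fun x hx => hγ ?_⟩
    rw [Set.mem_ofPred_eq, Valuation.restrict_lt_iff_lt_embedding]
    exact lt_of_le_of_lt hx hm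
  · rintro ⟨m, hm⟩
    have h0' : (Valued.v π : ℤᵐ⁰) ≠ 0 := by
      rw [hπ]
      exact ep_ne_zero
    have h0 : Valued.v.restrict (π ^ m) ≠ 0 := by
      rw [map_pow]
      apply pow_ne_zero
      simp only [ne_eq, map_eq_zero]
      intro h
      rw [h] at h0'
      simp at h0'
    refine ⟨Units.mk0 _ h0, fun x hx => hm ?_⟩
    rw [Set.mem_ofPred_eq, Units.val_mk0, Valuation.restrict_lt_iff, map_pow, hπ] at hx
    exact hx.le

theorem tendsto_zero_iff' {π : L} (hπ : Valued.v π = ep) {α : Type*} {l : Filter α} {s : α → L} :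
    Tendsto s l (𝓝 0) ↔ ∀ m : ℕ, ∀ᶠ i in l, Valued.v (s i) ≤ ep ^ m := by
  constructor
  · intro h m
    exact h ((mem_nhds_zero_iff' hπ).2 ⟨m, subset_rfl⟩)
  · intro h U hU
    obtain ⟨m, hm⟩ := (mem_nhds_zero_iff' hπ).1 hU
    rw [Filter.mem_map]
    filter_upwards [h m] with i hi
    exact hm hi

/-- If `s → x` and the valuations of `s` are eventually equal to `γ ≠ 0`, then `v x = γ`. -/
theorem val_lim_eq {π : L} (hπ : Valued.v π = ep) {α : Type*} {l : Filter α} [l.NeBot] {s : α → L}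
    {x : L} (hs : Tendsto s l (𝓝 x)) {γ : ℤᵐ⁰} (hγ : γ ≠ 0)
    (h : ∀ᶠ i in l, Valued.v (s i) = γ) : Valued.v x = γ := by
  have hx : x ≠ 0 := by
    rintro rfl
    obtain ⟨m, hm⟩ := exists_ep_pow_lt hγ
    have h1 := (tendsto_zero_iff' hπ).1 hs m
    obtain ⟨i, hi1, hi2⟩ := (h1.and h).exists
    rw [hi2] at hi1
    exact absurd hm (not_lt.2 hi1)
  have hx' : (Valued.v x : ℤᵐ⁰) ≠ 0 := by
    rw [Valuation.ne_zero_iff]; exact hx
  have h1 : ∀ᶠ i in l, Valued.v (s i) = Valued.v x := hs (Valued.locally_const hx')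
  obtain ⟨i, hi1, hi2⟩ := (h1.and h).exists
  rw [← hi1, hi2]

end topology

section extend

variable {w : HeightOneSpectrum F[X]} {v : F[X]}

omit [Fintype F] in
theorem val_pi (hw : w.asIdeal = Ideal.span {v}) (hv : v ≠ 0) :
    Valued.v (iL w (ι F v)) = ep := by
  rw [val_iL, val_v hw hv]

omit [Fintype F] in
theorem denseRange_iL (w : HeightOneSpectrum F[X]) : DenseRange (iL w) :=
  HeightOneSpectrum.denseRange_algebraMap (RatFunc F) w

theorem exists_cartL (hw : w.asIdeal = Ideal.span {v}) (hv : v ≠ 0) :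
    ∃ C : Lw w → Lw w, Continuous C ∧ ∀ k, C (iL w k) = iL w (cartK 1 k) := by
  let _ : UniformSpace (RatFunc F) := UniformSpace.comap (iL w) inferInstance
  have hi : IsUniformInducing (iL w) := ⟨rfl⟩
  have : IsUniformAddGroup (RatFunc F) := hi.isUniformAddGroup (iL w)
  have hd : DenseRange (iL w) := denseRange_iL w
  have hcont0 : Tendsto (fun k => iL w (cartK 1 k)) (𝓝 (0 : RatFunc F)) (𝓝 0) := by
    rw [tendsto_zero_iff' (val_pi hw hv)]
    intro m
    have : (iL w) ⁻¹' {x | Valued.v x ≤ ep ^ (Fintype.card F * m)} ∈ 𝓝 (0 : RatFunc F) := by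
      rw [hi.isInducing.nhds_eq_comap]
      apply Filter.preimage_mem_comap
      rw [map_zero]
      exact (mem_nhds_zero_iff' (val_pi hw hv)).2 ⟨_, subset_rfl⟩
    filter_upwards [this] with k hk
    have hk' : Valued.v (iL w k) ≤ ep ^ (Fintype.card F * m) := hk
    rw [val_iL] at hk' ⊢
    exact val_cartK hw hv hk'
  let f : RatFunc F →+ Lw w :=
    { toFun := fun k => iL w (cartK 1 k)
      map_zero' := by
        have := cartK_add (F := F) 1 0 0
        simp only [add_zero, left_eq_add] at this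
        rw [this, map_zero]
      map_add' := fun x y => by rw [cartK_add, map_add] }
  have hf : UniformContinuous f := by
    apply uniformContinuous_of_tendsto_zero
    exact hcont0
  exact ⟨(hi.isDenseInducing hd).extend f, (uniformContinuous_uniformly_extend hi hd hf).continuous,
    fun k => uniformly_extend_of_ind hi hd hf k⟩

/-- The Cartier operator on the completion. -/
theorem exists_cartOp (hw : w.asIdeal = Ideal.span {v}) (hv : v ≠ 0) :
    ∃ C : CartOp F (Lw w), Continuous C.toFun ∧ ∀ k, C.toFun (iL w k) = iL w (cartK 1 k) := by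
  obtain ⟨C, hC, hCk⟩ := exists_cartL hw hv
  have hd : DenseRange (iL w) := denseRange_iL w
  refine ⟨⟨C, ?_, ?_, ?_⟩, hC, hCk⟩
  · intro x y
    refine hd.induction_on₂ (p := fun x y => C (x + y) = C x + C y) ?_ ?_ x y
    · exact isClosed_eq (hC.comp (continuous_fst.add continuous_snd))
        ((hC.comp continuous_fst).add (hC.comp continuous_snd))
    · intro a b
      rw [← map_add, hCk, hCk, hCk, ← map_add, cartK_add]
  · intro x y
    refine hd.induction_on₂ (p := fun x y => C (x ^ (Fintype.card F) * y) = x * C y) ?_ ?_ x y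
    · exact isClosed_eq (hC.comp ((continuous_fst.pow _).mul continuous_snd))
        (continuous_fst.mul (hC.comp continuous_snd))
    · intro a b
      rw [← map_pow, ← map_mul, hCk, hCk, ← map_mul]
      have := cartK_pow_mul 1 b a
      rw [pow_one] at this
      rw [this]
  · intro a
    have h1 : algebraMap F[X] (Lw w) a = iL w (ι F a) := rfl
    have h2 : ∀ a, algebraMap F[X] (Lw w) a = iL w (ι F a) := fun _ => rfl
    rw [h1, h2, hCk, cartK_poly, pow_one]

end extend

end Pool.Agent.Lib253687
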