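import Mathlib
import Pool.Agent.Lib_253687.Comp

/-!
Core argument: congruence of digits modulo `p`.
-/

namespace Pool.Agent.Lib253687

open Polynomial Finset IsDedekindDomain Filter Topology WithZero

variable {F : Type*} [Field F] [Fintype F]

/-! ### Logarithmic derivatives -/

/-- `f' = l f`. -/
def LD {F : Type*} [Field F] (f l : RatFunc F) : Prop := derK f = l * f

omit [Fintype F] in
theorem LD.mul {f g l m : RatFunc F} (hf : LD f l) (hg : LD g m) : LD (f * g) (l + m) := by
  unfold LD at *
  rw [derK_mul, hf, hg]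
  ring

omit [Fintype F] in
theorem LD.one : LD (1 : RatFunc F) 0 := by
  unfold LD
  have := derK_poly (F := F) 1
  simpa using this

omit [Fintype F] in
theorem LD.pow {f l : RatFunc F} (hf : LD f l) (n : ℕ) : LD (f ^ n) (n * l) := by
  induction n with
  | zero => simpa using LD.one
  | succ n ih =>
    rw [pow_succ]
    have := ih.mul hf
    push_cast
    rw [add_mul, one_mul]
    exact this

theorem card_cast_eq_zero (k : ℕ) (hk : 1 ≤ k) : ((Fintype.card F ^ k : ℕ) : RatFunc F) = 0 := by
  have h1 : ((Fintype.card F : ℕ) : F) = 0 := FiniteField.cast_card_eq_zero F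
  have h2 : ((Fintype.card F ^ k : ℕ) : F) = 0 := by
    rw [Nat.cast_pow, h1, zero_pow (by omega)]
  have h3 := congrArg (algebraMap F (RatFunc F)) h2
  rwa [map_natCast, map_zero] at h3

theorem LD.pow_card {f l : RatFunc F} (hf : LD f l) (k : ℕ) (hk : 1 ≤ k) :
    LD (f ^ (Fintype.card F ^ k)) 0 := by
  have := hf.pow (Fintype.card F ^ k)
  rw [card_cast_eq_zero k hk, zero_mul] at this
  exact this

omit [Fintype F] in
theorem LD.of_mul {f g l m : RatFunc F} (hg0 : g ≠ 0) (hfg : LD (f * g) l) (hg : LD g m) :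
    LD f (l - m) := by
  unfold LD at *
  rw [derK_mul, hg] at hfg
  apply mul_right_cancel₀ hg0
  linear_combination hfg

omit [Fintype F] in
theorem LD.exists_of_ne_zero {f : RatFunc F} (hf : f ≠ 0) : LD f (derK f / f) := by
  unfold LD
  field_simp

omit [Fintype F] in
theorem LD.unique {f l m : RatFunc F} (hf : f ≠ 0) (h1 : LD f l) (h2 : LD f m) : l = m := by
  unfold LD at *
  rw [h1] at h2
  exact mul_right_cancel₀ hf h2

theorem LD.br {j : ℕ} (hj : 1 ≤ j) : LD (ι F (br F j)) (-(1 / ι F (br F j))) := by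
  unfold LD
  have hne := ι_ne_zero (br_ne_zero (F := F) hj)
  rw [derK_poly]
  have : derivative (Pool.Agent.Lib253687.br F j) = -1 := by
    unfold Pool.Agent.Lib253687.br
    rw [derivative_sub, derivative_X_pow, derivative_X]
    have h1 : ((Fintype.card F ^ j : ℕ) : F[X]) = 0 := by
      have h1 : ((Fintype.card F : ℕ) : F) = 0 := FiniteField.cast_card_eq_zero F
      have h2 : ((Fintype.card F ^ j : ℕ) : F) = 0 := by
        rw [Nat.cast_pow, h1, zero_pow (by omega)]
      have h3 := congrArg C h2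
      rwa [map_natCast, map_zero] at h3
    rw [← map_natCast C] at h1
    rw [h1, zero_mul, zero_sub]
  rw [this, map_neg, map_one]
  field_simp

/-! ### The elements `-D_{j,v}` -/

/-- `x_j = -D_{j,v}` in `F(X)`. -/
noncomputable def xK (v : F[X]) (j : ℕ) : RatFunc F := ι F (-(Dv v j))

/-- `1/[j-d] - 1/[j]`. -/
noncomputable def lam (v : F[X]) (j : ℕ) : RatFunc F :=
  1 / ι F (br F (j - v.natDegree)) - 1 / ι F (br F j)

theorem xK_ne_zero (v : F[X]) (j : ℕ) : xK v j ≠ 0 := by
  unfold xK
  exact ι_ne_zero (neg_ne_zero.2 (Dv_ne_zero j))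

theorem neg_pow_card (g : F[X]) : (-g) ^ (Fintype.card F) = - g ^ (Fintype.card F) := by
  have := sub_pow_card_pow (0 : F[X]) g 1
  rw [pow_one, zero_sub, zero_pow Fintype.card_ne_zero, zero_sub] at this
  exact this

theorem xK_succ {v : F[X]} (hv : v.Monic) {j : ℕ} (hj : v.natDegree ≤ j) :
    xK v (j + 1) * ι F (br F (j + 1 - v.natDegree)) =
      ι F (br F (j + 1)) * (xK v j) ^ (Fintype.card F) := by
  unfold xK
  rw [← map_pow, ← map_mul, ← map_mul, neg_pow_card]
  congr 1
  have := Dv_succ hv hj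
  linear_combination -this

theorem LD_xK {v : F[X]} (hv : v.Monic) {j : ℕ} (hj : v.natDegree < j) :
    LD (xK v j) (lam v j) := by
  obtain ⟨j, rfl⟩ : ∃ i, j = i + 1 := ⟨j - 1, by omega⟩
  have hne := ι_ne_zero (br_ne_zero (F := F) (j := j + 1 - v.natDegree) (by omega))
  have h1 : LD (xK v (j + 1) * ι F (br F (j + 1 - v.natDegree)))
      (-(1 / ι F (br F (j + 1))) + 0) := by
    rw [xK_succ hv (by omega)]
    apply (LD.br (by omega)).mul
    have h2 := (LD.exists_of_ne_zero (xK_ne_zero v j)).pow_card 1 le_rfl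
    rw [pow_one] at h2
    exact h2
  have h3 := LD.of_mul hne h1 (LD.br (by omega))
  unfold lam
  convert h3 using 1
  ring

/-- Partial products `∏_{d<j<J} x_j^(n_j)`. -/
noncomputable def fK (v : F[X]) (n : ℕ → ℕ) (J : ℕ) : RatFunc F :=
  ∏ j ∈ Ico (v.natDegree + 1) J, (xK v j) ^ (n j)

/-- Partial sums `∑_{d<j<J} n_j (1/[j-d] - 1/[j])`. -/
noncomputable def TK (v : F[X]) (n : ℕ → ℕ) (J : ℕ) : RatFunc F :=
  ∑ j ∈ Ico (v.natDegree + 1) J, (n j : RatFunc F) * lam v j

theorem fK_ne_zero (v : F[X]) (n : ℕ → ℕ) (J : ℕ) : fK v n J ≠ 0 := by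
  unfold fK
  rw [Finset.prod_ne_zero_iff]
  intro j _
  exact pow_ne_zero _ (xK_ne_zero v j)

theorem LD_fK {v : F[X]} (hv : v.Monic) (n : ℕ → ℕ) (J : ℕ) :
    LD (fK v n J) (TK v n J) := by
  unfold fK TK
  have : ∀ s : Finset ℕ, (∀ j ∈ s, v.natDegree < j) →
      LD (∏ j ∈ s, (xK v j) ^ (n j)) (∑ j ∈ s, (n j : RatFunc F) * lam v j) := by
    intro s
    induction s using Finset.induction_on with
    | empty => intro _; simpa using LD.one
    | insert a s ha ih =>
      intro hs
      rw [Finset.prod_insert ha, Finset.sum_insert ha]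
      exact ((LD_xK hv (hs a (Finset.mem_insert_self a s))).pow _).mul
        (ih (fun j hj => hs j (Finset.mem_insert_of_mem hj)))
  apply this
  intro j hj
  rw [Finset.mem_Ico] at hj
  omega

/-! ### Limit of the logarithmic derivatives -/

section lim

variable {w : HeightOneSpectrum F[X]} {v : F[X]}

theorem val_xK (hw : w.asIdeal = Ideal.span {v}) (hv : v ≠ 0) (j : ℕ) :
    w.valuation (RatFunc F) (xK v j) = 1 := by
  have hp : Prime v := by
    have := w.isPrime
    rw [hw] at this
    exact (Ideal.span_singleton_prime hv).1 this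
  unfold xK
  apply val_poly_eq_one hw
  rw [dvd_neg]
  exact not_dvd_Dv hp j

theorem val_fK (hw : w.asIdeal = Ideal.span {v}) (hv : v ≠ 0) (n : ℕ → ℕ) (J : ℕ) :
    w.valuation (RatFunc F) (fK v n J) = 1 := by
  unfold fK
  rw [map_prod]
  apply Finset.prod_eq_one
  intro j _
  rw [map_pow, val_xK hw hv, one_pow]

omit [Fintype F] in
theorem isAlgebraic_iL (k : RatFunc F) : IsAlgebraic (RatFunc F) (iL w k) :=
  isAlgebraic_algebraMap k

omit [Fintype F] in
theorem isAlgebraic_finsum {ι' : Type*} (s : Finset ι') (g : ι' → Lw w)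
    (h : ∀ i ∈ s, IsAlgebraic (RatFunc F) (g i)) : IsAlgebraic (RatFunc F) (∑ i ∈ s, g i) := by
  classical
  induction s using Finset.induction_on with
  | empty => simpa using isAlgebraic_zero
  | insert a s ha ih =>
    rw [Finset.sum_insert ha]
    exact (h a (Finset.mem_insert_self a s)).add
      (ih (fun i hi => h i (Finset.mem_insert_of_mem hi)))

theorem tendsto_TK (hw : w.asIdeal = Ideal.span {v}) (hv : v.Monic) (n : ℕ → ℕ)
    {f : Lw w} (hf : Tendsto (fun J => iL w (fK v n J)) atTop (𝓝 f))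
    (hfalg : IsAlgebraic (RatFunc F) f) :
    ∃ T : Lw w, IsAlgebraic (RatFunc F) T ∧ Tendsto (fun J => iL w (TK v n J)) atTop (𝓝 T) := by
  have hv0 : v ≠ 0 := hv.ne_zero
  have hπ := val_pi hw hv0
  obtain ⟨C, hCc, hCk⟩ := exists_cartOp hw hv0
  obtain ⟨m, A, hA0, hsum⟩ := exists_ore C f hfalg
  have hfval : Valued.v f = (1 : ℤᵐ⁰) := by
    apply val_lim_eq hπ hf one_ne_zero
    exact Eventually.of_forall (fun J => by rw [val_iL, val_fK hw hv0])
  have hf0 : f ≠ 0 := by
    intro h
    rw [h, map_zero] at hfval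
    exact zero_ne_one hfval
  have hA0' : ι F (A 0) ≠ 0 := ι_ne_zero hA0
  have hA0L : iL w (ι F (A 0)) ≠ 0 := by
    rw [Ne, map_eq_zero]; exact hA0'
  -- the relation evaluated at the partial products
  set R : ℕ → RatFunc F := fun J => ∑ i ∈ range (m + 1), ι F (A i) * (fK v n J) ^ (Fintype.card F ^ i)
    with hR
  have hRlim : Tendsto (fun J => iL w (R J)) atTop (𝓝 0) := by
    rw [← hsum]
    have h1 : ∀ J, iL w (R J) = ∑ i ∈ range (m + 1), algebraMap F[X] (Lw w) (A i) *
        (iL w (fK v n J)) ^ (Fintype.card F ^ i) := by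
      intro J
      rw [hR]
      simp only [map_sum, map_mul, map_pow]
      rfl
    simp_rw [h1]
    apply tendsto_finsetSum
    intro i _
    exact (hf.pow _).const_mul _
  have hdR : ∀ J, derK (R J) = (∑ i ∈ range (m + 1), ι F (derivative (A i)) *
      (fK v n J) ^ (Fintype.card F ^ i)) + ι F (A 0) * (TK v n J * fK v n J) := by
    intro J
    have hderK_sum : ∀ (s : Finset ℕ) (g : ℕ → RatFunc F),
        derK (∑ i ∈ s, g i) = ∑ i ∈ s, derK (g i) := by
      intro s g
      induction s using Finset.induction_on with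
      | empty =>
        have := derK_poly (F := F) 0
        simpa using this
      | insert a s ha ih => rw [Finset.sum_insert ha, Finset.sum_insert ha, derK_add, ih]
    rw [hR]
    simp only
    rw [hderK_sum]
    have hterm : ∀ i, derK (ι F (A i) * (fK v n J) ^ (Fintype.card F ^ i)) =
        ι F (derivative (A i)) * (fK v n J) ^ (Fintype.card F ^ i) +
          if i = 0 then ι F (A 0) * (TK v n J * fK v n J) else 0 := by
      intro i
      rw [derK_mul, derK_poly]
      congr 1
      by_cases hi : i = 0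
      · subst hi
        have := LD_fK hv n J
        unfold LD at this
        simp [this]
      · rw [if_neg hi]
        have := (LD_fK hv n J).pow_card i (by omega)
        unfold LD at this
        rw [this]
        ring
    simp_rw [hterm]
    rw [Finset.sum_add_distrib]
    congr 1
    rw [Finset.sum_ite_eq']
    simp
  have hdRlim : Tendsto (fun J => iL w (derK (R J))) atTop (𝓝 0) := by
    rw [tendsto_zero_iff' hπ] at hRlim ⊢
    intro k
    filter_upwards [hRlim (k + 1)] with J hJ
    rw [val_iL] at hJ ⊢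
    exact val_derK hw hv0 hJ
  set G : Lw w := ∑ i ∈ range (m + 1), algebraMap F[X] (Lw w) (derivative (A i)) *
        f ^ (Fintype.card F ^ i) with hG
  have hGlim : Tendsto (fun J => iL w (∑ i ∈ range (m + 1), ι F (derivative (A i)) *
      (fK v n J) ^ (Fintype.card F ^ i))) atTop (𝓝 G) := by
    have h1 : ∀ J, iL w (∑ i ∈ range (m + 1), ι F (derivative (A i)) *
      (fK v n J) ^ (Fintype.card F ^ i)) = ∑ i ∈ range (m + 1),
        algebraMap F[X] (Lw w) (derivative (A i)) *
        (iL w (fK v n J)) ^ (Fintype.card F ^ i) := by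
      intro J
      simp only [map_sum, map_mul, map_pow]
      rfl
    simp_rw [h1]
    apply tendsto_finsetSum
    intro i _
    exact (hf.pow _).const_mul _
  have hTK : ∀ J, iL w (TK v n J) = (iL w (derK (R J)) - iL w (∑ i ∈ range (m + 1),
      ι F (derivative (A i)) * (fK v n J) ^ (Fintype.card F ^ i))) /
        (iL w (ι F (A 0)) * iL w (fK v n J)) := by
    intro J
    have h0 : iL w (fK v n J) ≠ 0 := by
      rw [Ne, map_eq_zero]; exact fK_ne_zero v n J
    rw [eq_div_iff (mul_ne_zero hA0L h0), hdR, map_add, map_mul, map_mul]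
    ring
  refine ⟨(0 - G) / (iL w (ι F (A 0)) * f), ?_, ?_⟩
  · have hGalg : IsAlgebraic (RatFunc F) G := by
      rw [hG]
      apply isAlgebraic_finsum
      intro i _
      exact (isAlgebraic_iL (ι F (derivative (A i)))).mul (hfalg.pow _)
    rw [div_eq_mul_inv]
    apply IsAlgebraic.mul
    · rw [zero_sub]; exact hGalg.neg
    · apply IsAlgebraic.inv
      exact (isAlgebraic_iL _).mul hfalg
  · simp_rw [hTK]
    apply Tendsto.div
    · exact hdRlim.sub hGlim
    · exact hf.const_mul _
    · exact mul_ne_zero hA0L hf0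

end lim

end Pool.Agent.Lib253687
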