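import Mathlib
import Pool.Agent.Lib_253687.Core

/-!
Core argument, second part: digits are eventually `d`-periodic modulo `p`.
-/

namespace Pool.Agent.Lib253687

open Polynomial Finset IsDedekindDomain Filter Topology WithZero

variable {F : Type*} [Field F] [Fintype F]

/-! ### A polynomial divisible by all small brackets -/

theorem br_one_dvd (i : ℕ) (hi : 1 ≤ i) : br F 1 ∣ br F i := by
  induction i, hi using Nat.le_induction with
  | base => exact dvd_rfl
  | succ i hi ih =>
    have : br F (i + 1) = (br F i) ^ (Fintype.card F) + br F 1 := by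
      have h1 := sub_pow_card_pow (X ^ (Fintype.card F ^ i) : F[X]) X 1
      rw [pow_one] at h1
      unfold br
      rw [h1, ← pow_mul, ← pow_succ, pow_one]
      ring
    rw [this]
    exact dvd_add (dvd_pow ih Fintype.card_ne_zero) dvd_rfl

theorem exists_lcm_poly (N : ℕ) (hN : 2 ≤ N) : ∃ L : F[X], L ≠ 0 ∧
    (∀ i, 1 ≤ i → i < N → br F i ∣ L) ∧
    L.natDegree + Fintype.card F * (N - 1) ≤ Fintype.card F ^ N := by
  have hq : 2 ≤ Fintype.card F := Fintype.one_lt_card
  induction N, hN using Nat.le_induction with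
  | base =>
    refine ⟨br F 1, br_ne_zero le_rfl, ?_, ?_⟩
    · intro i h1 h2
      have : i = 1 := by omega
      rw [this]
    · rw [br_natDegree le_rfl, pow_one]
      nlinarith
  | succ N hN ih =>
    obtain ⟨L, hL0, hdvd, hdeg⟩ := ih
    obtain ⟨c, hc⟩ := br_one_dvd (F := F) N (by omega)
    have hbr0 := br_ne_zero (F := F) (j := N) (by omega)
    have hc0 : c ≠ 0 := by
      rintro rfl
      rw [mul_zero] at hc
      exact hbr0 hc
    refine ⟨L * c, mul_ne_zero hL0 hc0, ?_, ?_⟩
    · intro i h1 h2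
      by_cases hi : i = N
      · subst hi
        rw [hc]
        exact mul_dvd_mul_right (hdvd 1 le_rfl (by omega)) c
      · exact (hdvd i h1 (by omega)).mul_right c
    · have hcdeg : Fintype.card F ^ N = Fintype.card F + c.natDegree := by
        have := br_natDegree (F := F) (j := N) (by omega)
        rw [hc, natDegree_mul (br_ne_zero le_rfl) hc0, br_natDegree le_rfl, pow_one] at this
        exact this.symm
      rw [natDegree_mul hL0 hc0, pow_succ]
      obtain ⟨M, rfl⟩ : ∃ M, N = M + 2 := ⟨N - 2, by omega⟩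
      have e1 : M + 2 + 1 - 1 = (M + 2 - 1) + 1 := by omega
      rw [e1, mul_add, mul_one]
      nlinarith

/-! ### The Cartier operator on partial sums -/

theorem cartK_sub (k : ℕ) (f g : RatFunc F) : cartK k (f - g) = cartK k f - cartK k g := by
  have := cartK_add k (f - g) g
  rw [sub_add_cancel] at this
  rw [this]; ring

theorem cartK_zero' (k : ℕ) : cartK k (0 : RatFunc F) = 0 := by
  have := cartK_sub (F := F) k 0 0
  simpa using this

theorem cartK_natCast_mul (k : ℕ) (c : ℕ) (f : RatFunc F) :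
    cartK k ((c : RatFunc F) * f) = c * cartK k f := by
  induction c with
  | zero => simp [cartK_zero']
  | succ c ih => push_cast; rw [add_mul, add_mul, cartK_add, ih, one_mul, one_mul]

theorem cartK_sum (k : ℕ) {ι' : Type*} (s : Finset ι') (f : ι' → RatFunc F) :
    cartK k (∑ i ∈ s, f i) = ∑ i ∈ s, cartK k (f i) := by
  classical
  induction s using Finset.induction_on with
  | empty => simp [cartK_zero']
  | insert a s ha ih => rw [Finset.sum_insert ha, Finset.sum_insert ha, cartK_add, ih]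

/-- `B^(q^(j-N)) / [j]`. -/
noncomputable def beta (N : ℕ) (B : F[X]) (j : ℕ) : RatFunc F :=
  ι F (B ^ (Fintype.card F ^ (j - N))) / ι F (br F j)

theorem cartK_TK {v : F[X]} (n : ℕ → ℕ) {N J : ℕ} (hN : v.natDegree + 1 ≤ N) (hJ : N ≤ J)
    (B : F[X]) (hB : B.natDegree < Fintype.card F ^ N)
    (hdvd : ∀ i, 1 ≤ i → i < N → br F i ∣ B) :
    cartK N (ι F B * TK v n (J + v.natDegree)) =
      ∑ i ∈ Ico N J, (((n (i + v.natDegree) : ℕ) : RatFunc F) - (n i : RatFunc F)) * beta N B i -
        ∑ i ∈ Ico J (J + v.natDegree), (n i : RatFunc F) * beta N B i := by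
  set d := v.natDegree with hd
  set g : ℕ → RatFunc F := fun j => cartK N (ι F B / ι F (br F j)) with hg
  have hg0 : ∀ j, 1 ≤ j → j < N → g j = 0 := fun j h1 h2 =>
    cartK_br_small h2 h1 B hB (hdvd j h1 h2)
  have hg1 : ∀ j, N ≤ j → g j = beta N B j := fun j h1 =>
    cartK_br h1 (by omega) B hB
  have h1 : cartK N (ι F B * TK v n (J + d)) =
      ∑ j ∈ Ico (d + 1) (J + d), (n j : RatFunc F) * (g (j - d) - g j) := by
    unfold TK
    rw [Finset.mul_sum, cartK_sum]
    apply Finset.sum_congr rfl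
    intro j _
    have : ι F B * ((n j : RatFunc F) * lam v j) = (n j : RatFunc F) *
        (ι F B / ι F (br F (j - d)) - ι F B / ι F (br F j)) := by
      unfold lam
      ring
    rw [this, cartK_natCast_mul, cartK_sub]
  rw [h1]
  simp_rw [mul_sub, Finset.sum_sub_distrib]
  have h2 : ∑ j ∈ Ico (d + 1) (J + d), (n j : RatFunc F) * g (j - d) =
      ∑ i ∈ Ico N J, (n (i + d) : RatFunc F) * beta N B i := by
    have e1 : Ico (d + 1) (J + d) = Ico (1 + d) (J + d) := by rw [add_comm d 1]
    rw [e1, ← Finset.sum_Ico_add' (fun j => (n j : RatFunc F) * g (j - d)) 1 J d]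
    simp only [Nat.add_sub_cancel]
    rw [← Finset.sum_Ico_consecutive _ (show 1 ≤ N by omega) hJ]
    rw [Finset.sum_eq_zero, zero_add]
    · apply Finset.sum_congr rfl
      intro j hj
      rw [Finset.mem_Ico] at hj
      rw [hg1 j hj.1]
    · intro j hj
      rw [Finset.mem_Ico] at hj
      rw [hg0 j hj.1 hj.2, mul_zero]
  have h3 : ∑ j ∈ Ico (d + 1) (J + d), (n j : RatFunc F) * g j =
      ∑ i ∈ Ico N J, (n i : RatFunc F) * beta N B i +
        ∑ i ∈ Ico J (J + d), (n i : RatFunc F) * beta N B i := by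
    rw [Finset.sum_Ico_consecutive _ hJ (by omega), ← Finset.sum_Ico_consecutive _ hN (by omega)]
    rw [Finset.sum_eq_zero, zero_add]
    · apply Finset.sum_congr rfl
      intro j hj
      rw [Finset.mem_Ico] at hj
      rw [hg1 j hj.1]
    · intro j hj
      rw [Finset.mem_Ico] at hj
      rw [hg0 j (by omega) hj.2, mul_zero]
  rw [h2, h3]
  simp_rw [sub_mul, Finset.sum_sub_distrib]
  ring

/-! ### Valuations of polynomials -/

section vals

variable {w : HeightOneSpectrum F[X]} {v : F[X]}

omit [Fintype F] in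
theorem val_le_pow_iff (hw : w.asIdeal = Ideal.span {v}) (a : F[X]) (c : ℕ) :
    w.valuation (RatFunc F) (ι F a) ≤ ep ^ c ↔ v ^ c ∣ a := by
  rw [HeightOneSpectrum.valuation_of_algebraMap, ep_pow,
    HeightOneSpectrum.intValuation_le_pow_iff_mem, hw, Ideal.span_singleton_pow,
    Ideal.mem_span_singleton]

omit [Fintype F] in
theorem exists_val_eq (w : HeightOneSpectrum F[X]) {a : F[X]} (ha : a ≠ 0) :
    ∃ c : ℕ, w.valuation (RatFunc F) (ι F a) = ep ^ c := by
  rw [HeightOneSpectrum.valuation_of_algebraMap,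
    HeightOneSpectrum.intValuation_eq_exp_neg_multiplicity _ ha]
  exact ⟨_, (ep_pow _).symm⟩

theorem ep_le_val_br (hw : w.asIdeal = Ideal.span {v}) {j : ℕ} (hj : 1 ≤ j) :
    ep ≤ w.valuation (RatFunc F) (ι F (br F j)) := by
  obtain ⟨c, hc⟩ := exists_val_eq w (br_ne_zero (F := F) hj)
  by_cases hc1 : c ≤ 1
  · rw [hc]
    calc ep = ep ^ 1 := (pow_one _).symm
      _ ≤ ep ^ c := ep_pow_le hc1
  · exfalso
    have h2 : w.valuation (RatFunc F) (ι F (br F j)) ≤ ep ^ 2 := by
      rw [hc]; exact ep_pow_le (by omega)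
    rw [val_le_pow_iff hw] at h2
    obtain ⟨g, hg⟩ := h2
    have hder : derivative (br F j) = -1 := by
      have := (LD.br (F := F) hj)
      unfold LD at this
      rw [derK_poly] at this
      have hne := ι_ne_zero (br_ne_zero (F := F) hj)
      apply IsFractionRing.injective F[X] (RatFunc F)
      rw [map_neg, map_one]
      refine this.trans ?_
      field_simp
    rw [hg, derivative_mul, derivative_pow] at hder
    have hunit : v ∣ 1 := by
      refine ⟨-(C ((2 : ℕ) : F) * derivative v * g + v * derivative g), ?_⟩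
      have : (-1 : F[X]) = v * (C ((2 : ℕ) : F) * derivative v * g + v * derivative g) := by
        rw [← hder]
        norm_num
        ring
      linear_combination -this
    have hp := w.isPrime
    rw [hw] at hp
    exact hp.ne_top (Ideal.span_singleton_eq_top.2 (isUnit_of_dvd_one hunit))

omit [Fintype F] in
theorem val_const {c : F} (hc : c ≠ 0) :
    w.valuation (RatFunc F) (algebraMap F (RatFunc F) c) = 1 := by
  have h1 : algebraMap F (RatFunc F) c = ι F (C c) := by
    rw [IsScalarTower.algebraMap_apply F F[X] (RatFunc F)]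
    rfl
  have h2 : algebraMap F (RatFunc F) c * ι F (C c⁻¹) = 1 := by
    rw [h1, ← map_mul, ← C_mul, mul_inv_cancel₀ hc, C_1, map_one]
  have h3 := congrArg (w.valuation (RatFunc F)) h2
  rw [map_mul, map_one] at h3
  have h4 : w.valuation (RatFunc F) (algebraMap F (RatFunc F) c) ≤ 1 := by
    rw [h1]; exact val_poly_le_one _
  have h5 : w.valuation (RatFunc F) (ι F (C c⁻¹)) ≤ 1 := val_poly_le_one _
  apply le_antisymm h4
  rw [← h3]
  exact mul_le_of_le_one_right' h5

theorem val_beta_le (hw : w.asIdeal = Ideal.span {v}) {N j b : ℕ} (hj : 1 ≤ j) {B : F[X]}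
    (hb : w.valuation (RatFunc F) (ι F B) = ep ^ (b + 1)) :
    w.valuation (RatFunc F) (beta N B j) ≤ ep ^ ((b + 1) * Fintype.card F ^ (j - N) - 1) := by
  unfold beta
  rw [map_div₀, map_pow, map_pow, hb, ← pow_mul]
  have h1 := ep_le_val_br hw hj
  have h0 : 0 < w.valuation (RatFunc F) (ι F (br F j)) := lt_of_lt_of_le ep_pos h1
  rw [div_le_iff₀ h0]
  have h2 : 1 ≤ (b + 1) * Fintype.card F ^ (j - N) :=
    Nat.mul_pos (by omega) (card_pow_pos F _)
  obtain ⟨r, hr⟩ : ∃ r, (b + 1) * Fintype.card F ^ (j - N) = r + 1 := ⟨_, (Nat.sub_add_cancel h2).symm⟩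
  rw [hr, Nat.add_sub_cancel, pow_succ]
  exact mul_le_mul_right h1 _

theorem le_val_beta (hw : w.asIdeal = Ideal.span {v}) {N j b : ℕ} (hj : 1 ≤ j) {B : F[X]}
    (hb : w.valuation (RatFunc F) (ι F B) = ep ^ (b + 1)) :
    ep ^ ((b + 1) * Fintype.card F ^ (j - N)) ≤ w.valuation (RatFunc F) (beta N B j) := by
  unfold beta
  rw [map_div₀, map_pow, map_pow, hb, ← pow_mul]
  have h1 := ep_le_val_br hw hj
  have h0 : 0 < w.valuation (RatFunc F) (ι F (br F j)) := lt_of_lt_of_le ep_pos h1
  rw [le_div_iff₀ h0]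
  exact mul_le_of_le_one_right' (val_poly_le_one _)

theorem val_beta_lt (hw : w.asIdeal = Ideal.span {v}) {N i j b : ℕ} (hi : 1 ≤ i) (hN : N ≤ i)
    (hij : i < j) {B : F[X]}
    (hb : w.valuation (RatFunc F) (ι F B) = ep ^ (b + 1)) (hb1 : 1 ≤ b) :
    w.valuation (RatFunc F) (beta N B j) < w.valuation (RatFunc F) (beta N B i) := by
  refine lt_of_le_of_lt (val_beta_le hw (by omega) hb) (lt_of_lt_of_le (ep_pow_lt ?_)
    (le_val_beta hw hi hb))
  have hq : 2 ≤ Fintype.card F := Fintype.one_lt_card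
  have h1 : 1 ≤ Fintype.card F ^ (i - N) := card_pow_pos F _
  have h2 : Fintype.card F ^ (i - N) * 2 ≤ Fintype.card F ^ (j - N) := by
    calc Fintype.card F ^ (i - N) * 2 ≤ Fintype.card F ^ (i - N) * Fintype.card F :=
          Nat.mul_le_mul_left _ hq
      _ = Fintype.card F ^ (i - N + 1) := (pow_succ _ _).symm
      _ ≤ Fintype.card F ^ (j - N) := Nat.pow_le_pow_right (by omega) (by omega)
  have h3 : (b + 1) * (Fintype.card F ^ (i - N) * 2) ≤ (b + 1) * Fintype.card F ^ (j - N) :=
    Nat.mul_le_mul_left _ h2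
  have h4 : 2 ≤ (b + 1) * Fintype.card F ^ (i - N) := by nlinarith
  have h5 : (b + 1) * (Fintype.card F ^ (i - N) * 2) =
    (b + 1) * Fintype.card F ^ (i - N) + (b + 1) * Fintype.card F ^ (i - N) := by ring
  omega

end vals

end Pool.Agent.Lib253687
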