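import Mathlib
import Pool.Agent.Lib_253687.Core2

/-!
Core argument, third part.
-/

namespace Pool.Agent.Lib253687

open Polynomial Finset IsDedekindDomain Filter Topology WithZero

variable {F : Type*} [Field F] [Fintype F]

variable {w : HeightOneSpectrum F[X]} {v : F[X]}

theorem iterate_cartOp {C : CartOp F (Lw w)} (hCk : ∀ k, C.toFun (iL w k) = iL w (cartK 1 k))
    (N : ℕ) (k : RatFunc F) : (C.toFun)^[N] (iL w k) = iL w (cartK N k) := by
  rw [← cartK_one_iterate]
  induction N generalizing k with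
  | zero => rfl
  | succ N ih => rw [Function.iterate_succ_apply, Function.iterate_succ_apply, hCk, ih]

/-- If the product is algebraic, the digits are eventually `d`-periodic in `F`. -/
theorem digits_cong (hw : w.asIdeal = Ideal.span {v}) (hv : v.Monic) (n : ℕ → ℕ)
    {f : Lw w} (hf : Tendsto (fun J => iL w (fK v n J)) atTop (𝓝 f))
    (hfalg : IsAlgebraic (RatFunc F) f) :
    ∃ N, ∀ j ≥ N, ((n (j + v.natDegree) : ℕ) : F) = ((n j : ℕ) : F) := by
  have hv0 : v ≠ 0 := hv.ne_zero
  have hπ := val_pi hw hv0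
  obtain ⟨T, hTalg, hT⟩ := tendsto_TK hw hv n hf hfalg
  obtain ⟨C, hCc, hCk⟩ := exists_cartOp hw hv0
  obtain ⟨W, hWfin, hW⟩ := finite_orbit C T hTalg
  -- a uniform lower bound for valuations of nonzero elements of W
  obtain ⟨m0, hm0⟩ : ∃ m0 : ℕ, ∀ y ∈ W, y ≠ 0 → ep ^ m0 < Valued.v y := by
    clear hW
    induction W, hWfin using Set.Finite.induction_on with
    | empty => exact ⟨0, by simp⟩
    | insert ha hs ih =>
      rename_i a s
      obtain ⟨m1, hm1⟩ := ih
      by_cases h : a = 0
      · refine ⟨m1, ?_⟩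
        intro y hy hy0
        rcases hy with rfl | hy
        · exact absurd h hy0
        · exact hm1 y hy hy0
      · have h' : (Valued.v a : ℤᵐ⁰) ≠ 0 := by
          rw [Valuation.ne_zero_iff]; exact h
        obtain ⟨m2, hm2⟩ := exists_ep_pow_lt h'
        refine ⟨max m1 m2, ?_⟩
        intro y hy hy0
        rcases hy with rfl | hy
        · exact lt_of_le_of_lt (ep_pow_le (le_max_right _ _)) hm2
        · exact lt_of_le_of_lt (ep_pow_le (le_max_left _ _)) (hm1 y hy hy0)
  set d := v.natDegree with hd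
  set s := m0 + 2 with hs
  set N := s * d + s + d + 1 with hN
  obtain ⟨L, hL0, hLdvd, hLdeg⟩ := exists_lcm_poly (F := F) N (by omega)
  set B : F[X] := L * v ^ s with hB
  have hq : 2 ≤ Fintype.card F := Fintype.one_lt_card
  have hB0 : B ≠ 0 := mul_ne_zero hL0 (pow_ne_zero _ hv0)
  have hBdeg : B.natDegree < Fintype.card F ^ N := by
    rw [hB, natDegree_mul hL0 (pow_ne_zero _ hv0), natDegree_pow, ← hd]
    have h1 : s * d < Fintype.card F * (N - 1) := by
      have h2 : s * d < N - 1 := by omega
      calc s * d < N - 1 := h2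
        _ ≤ Fintype.card F * (N - 1) := Nat.le_mul_of_pos_left _ (by omega)
    omega
  have hBdvd : ∀ i, 1 ≤ i → i < N → br F i ∣ B := fun i h1 h2 => (hLdvd i h1 h2).mul_right _
  obtain ⟨c, hc⟩ := exists_val_eq w hB0
  have hcs : s ≤ c := by
    have h1 : w.valuation (RatFunc F) (ι F B) ≤ ep ^ s := by
      rw [val_le_pow_iff hw]
      exact Dvd.intro_left _ rfl
    by_contra h
    push Not at h
    rw [hc] at h1
    exact absurd (ep_pow_lt h) (not_lt.2 h1)
  obtain ⟨b, rfl⟩ : ∃ b, c = b + 1 := ⟨c - 1, by omega⟩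
  refine ⟨N, ?_⟩
  by_contra hcon
  push Not at hcon
  classical
  have hspec := Nat.find_spec hcon
  set j0 := Nat.find hcon with hj0
  obtain ⟨hj0N, hj0ne⟩ := hspec
  have hmin : ∀ j, N ≤ j → j < j0 → ((n (j + d) : ℕ) : F) = ((n j : ℕ) : F) := by
    intro j h1 h2
    by_contra h3
    exact Nat.find_min hcon h2 ⟨h1, h3⟩
  -- the limit
  have hcontC : Continuous (C.toFun)^[N] := hCc.iterate N
  set y := (C.toFun)^[N] (algebraMap F[X] (Lw w) B * T) with hy
  have hyW : y ∈ W := hW N B hBdeg.le
  have hlim : Tendsto (fun J => iL w (cartK N (ι F B * TK v n (J + d)))) atTop (𝓝 y) := by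
    have h1 : ∀ J, iL w (cartK N (ι F B * TK v n (J + d))) =
        (C.toFun)^[N] (iL w (ι F B) * iL w (TK v n (J + d))) := by
      intro J
      rw [← map_mul, iterate_cartOp hCk]
    simp_rw [h1]
    have h2 : Tendsto (fun J => iL w (TK v n (J + d))) atTop (𝓝 T) :=
      hT.comp (tendsto_add_atTop_nat d)
    exact (hcontC.tendsto _).comp (h2.const_mul _)
  have hval : ∀ᶠ J in atTop, Valued.v (iL w (cartK N (ι F B * TK v n (J + d)))) =
      w.valuation (RatFunc F) (beta N B j0) := by
    filter_upwards [eventually_gt_atTop j0] with J hJ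
    rw [val_iL, cartK_TK n (by omega) (by omega) B hBdeg hBdvd]
    have hmem : j0 ∈ Ico N J := Finset.mem_Ico.2 ⟨hj0N, hJ⟩
    rw [← Finset.add_sum_erase _ _ hmem, add_sub_assoc]
    have hcast : ∀ i, ((n (i + d) : ℕ) : RatFunc F) - (n i : RatFunc F) =
        algebraMap F (RatFunc F) (((n (i + d) : ℕ) : F) - ((n i : ℕ) : F)) := by
      intro i
      rw [map_sub, map_natCast, map_natCast]
    have hβ0 : w.valuation (RatFunc F) (beta N B j0) ≠ 0 :=
      (lt_of_lt_of_le (pow_pos ep_pos _) (le_val_beta hw (by omega) hc)).ne'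
    have hmain : w.valuation (RatFunc F) ((((n (j0 + d) : ℕ) : RatFunc F) - (n j0 : RatFunc F)) *
        beta N B j0) = w.valuation (RatFunc F) (beta N B j0) := by
      rw [map_mul, hcast, val_const (sub_ne_zero.2 hj0ne), one_mul]
    have hle1 : ∀ c : F, w.valuation (RatFunc F) (algebraMap F (RatFunc F) c) ≤ 1 := by
      intro c
      by_cases h : c = 0
      · rw [h, map_zero, map_zero]; exact zero_le_one
      · exact (val_const h).le
    have hrest : w.valuation (RatFunc F) (∑ i ∈ (Ico N J).erase j0,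
        (((n (i + d) : ℕ) : RatFunc F) - (n i : RatFunc F)) * beta N B i -
        ∑ i ∈ Ico J (J + d), (n i : RatFunc F) * beta N B i) <
          w.valuation (RatFunc F) (beta N B j0) := by
      apply lt_of_le_of_lt (Valuation.map_sub _ _ _)
      apply max_lt
      · apply Valuation.map_sum_lt _ hβ0
        intro i hi
        rw [Finset.mem_erase, Finset.mem_Ico] at hi
        rcases lt_trichotomy i j0 with h | h | h
        · rw [hcast, hmin i hi.2.1 h, sub_self, map_zero, zero_mul, map_zero]
          exact zero_lt_iff.2 hβ0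
        · exact absurd h hi.1
        · rw [map_mul, hcast]
          refine lt_of_le_of_lt (mul_le_of_le_one_left' (hle1 _)) ?_
          exact val_beta_lt hw (by omega) hj0N h hc (by omega)
      · apply Valuation.map_sum_lt _ hβ0
        intro i hi
        rw [Finset.mem_Ico] at hi
        rw [map_mul]
        have : ((n i : ℕ) : RatFunc F) = algebraMap F (RatFunc F) ((n i : ℕ) : F) := by
          rw [map_natCast]
        rw [this]
        refine lt_of_le_of_lt (mul_le_of_le_one_left' (hle1 _)) ?_
        exact val_beta_lt hw (by omega) hj0N (by omega) hc (by omega)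
    rw [← hmain] at hrest
    rw [Valuation.map_add_eq_of_lt_left _ hrest, hmain]
  have hβ0 : w.valuation (RatFunc F) (beta N B j0) ≠ 0 :=
      (lt_of_lt_of_le (pow_pos ep_pos _) (le_val_beta hw (by omega) hc)).ne'
  have hvy := val_lim_eq hπ hlim hβ0 hval
  have hy0 : y ≠ 0 := by
    intro h
    rw [h, map_zero] at hvy
    exact hβ0 hvy.symm
  have h1 := hm0 y hyW hy0
  rw [hvy] at h1
  have h2 := val_beta_le hw (N := N) (j := j0) (by omega) hc
  have h3 : ep ^ ((b + 1) * Fintype.card F ^ (j0 - N) - 1) ≤ ep ^ m0 := by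
    apply ep_pow_le
    have h4 : 1 ≤ Fintype.card F ^ (j0 - N) := card_pow_pos F _
    have h5 : b + 1 ≤ (b + 1) * Fintype.card F ^ (j0 - N) := Nat.le_mul_of_pos_right _ h4
    omega
  exact absurd h1 (not_lt.2 (h2.trans h3))

end Pool.Agent.Lib253687
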