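import Mathlib
import Pool.Agent.Lib_253687.Core3

/-!
`-D_{j,v} → 1` in the `v`-adic topology.
-/

namespace Pool.Agent.Lib253687

open Polynomial Finset IsDedekindDomain Filter Topology WithZero

variable {F : Type*} [Field F] [Fintype F]

variable {w : HeightOneSpectrum F[X]} {v : F[X]}

omit [Fintype F] in
theorem irreducible_of_hw (hw : w.asIdeal = Ideal.span {v}) (hv : v ≠ 0) : Irreducible v := by
  have := w.isPrime
  rw [hw] at this
  exact ((Ideal.span_singleton_prime hv).1 this).irreducible

/-- Wilson: `D_{d,v} ≡ -1 mod v`. -/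
theorem dvd_Dv_add_one (hv : v.Monic) (hirr : Irreducible v) :
    v ∣ Dv v v.natDegree + 1 := by
  classical
  have : Fact (Irreducible v) := ⟨hirr⟩
  have hfin : Finite (AdjoinRoot v) := by
    have : Module.Finite F (AdjoinRoot v) := (AdjoinRoot.powerBasis hv.ne_zero).finite
    exact Module.finite_of_finite F
  have : Fintype (AdjoinRoot v) := Fintype.ofFinite _
  have hmk : ∀ g : F[X], AdjoinRoot.mk v g = 0 ↔ v ∣ g := fun g => AdjoinRoot.mk_eq_zero
  rw [← hmk, map_add, map_one, Dv_eq_prod, map_prod]
  have hbij : ∏ a ∈ (monicFinset F v.natDegree).filter (fun a => ¬ v ∣ a), AdjoinRoot.mk v a =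
      ∏ u : (AdjoinRoot v)ˣ, (u : AdjoinRoot v) := by
    apply Finset.prod_bij (fun a ha => Units.mk0 (AdjoinRoot.mk v a)
      (by
        have := (Finset.mem_filter.1 ha).2
        rwa [Ne, hmk]))
    · intro a ha
      exact Finset.mem_univ _
    · intro a ha b hb hab
      have h1 : AdjoinRoot.mk v a = AdjoinRoot.mk v b := congrArg Units.val hab
      have h2 : v ∣ a - b := by rw [← hmk, map_sub, h1, sub_self]
      obtain ⟨ha1, ha2⟩ := mem_monicFinset.1 (Finset.mem_filter.1 ha).1
      obtain ⟨hb1, hb2⟩ := mem_monicFinset.1 (Finset.mem_filter.1 hb).1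
      have h3 : (a - b).degree < v.degree := by
        have h4 : (a - b).degree < a.degree := by
          apply degree_sub_lt_left
          · rw [degree_eq_natDegree ha1.ne_zero, degree_eq_natDegree hb1.ne_zero, ha2, hb2]
          · exact ha1.ne_zero
          · rw [ha1.leadingCoeff, hb1.leadingCoeff]
        rw [degree_eq_natDegree ha1.ne_zero, ha2] at h4
        rw [degree_eq_natDegree hv.ne_zero]
        exact h4
      have h5 := eq_zero_of_dvd_of_degree_lt h2 h3
      exact sub_eq_zero.1 h5
    · intro u _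
      obtain ⟨g, hg⟩ := AdjoinRoot.mk_surjective (u : AdjoinRoot v)
      have hr : AdjoinRoot.mk v (g %ₘ v) = u := by
        rw [← hg]
        have h1 := modByMonic_add_div g (q := v)
        conv_rhs => rw [← h1]
        rw [map_add, map_mul, AdjoinRoot.mk_self, zero_mul, add_zero]
      have hdeg : (g %ₘ v).degree < v.degree := degree_modByMonic_lt g hv
      refine ⟨v + g %ₘ v, ?_, ?_⟩
      · rw [Finset.mem_filter, mem_monicFinset]
        refine ⟨⟨?_, ?_⟩, ?_⟩
        · exact hv.add_of_left hdeg
        · exact natDegree_add_eq_left_of_degree_lt hdeg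
        · rw [← hmk, map_add, AdjoinRoot.mk_self, zero_add, hr]
          exact u.ne_zero
      · apply Units.ext
        rw [Units.val_mk0, map_add, AdjoinRoot.mk_self, zero_add, hr]
    · intro a ha
      rfl
  rw [hbij]
  have := FiniteField.prod_univ_units_id_eq_neg_one (K := AdjoinRoot v)
  have h2 := congrArg (Units.val) this
  rw [Units.coe_prod] at h2
  rw [h2]
  simp

theorem val_xK_natDegree_sub_one (hw : w.asIdeal = Ideal.span {v}) (hv : v.Monic) :
    w.valuation (RatFunc F) (xK v v.natDegree - 1) ≤ ep := by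
  have hirr := irreducible_of_hw hw hv.ne_zero
  have h1 : xK v v.natDegree - 1 = ι F (-(Dv v v.natDegree + 1)) := by
    unfold xK
    rw [map_neg, map_neg, map_add, map_one]
    ring
  rw [h1]
  have := (val_le_pow_iff hw (-(Dv v v.natDegree + 1)) 1).2
  rw [pow_one, pow_one] at this
  apply this
  rw [dvd_neg]
  exact dvd_Dv_add_one hv hirr

theorem dvd_br (hirr : Irreducible v) : v ∣ br F v.natDegree := by
  have := (Irreducible.natDegree_dvd_iff_dvd_X_pow_card_pow_sub_X hirr (n := v.natDegree)).1 dvd_rfl
  rw [Nat.card_eq_fintype_card] at this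
  exact this

theorem val_br_d (hw : w.asIdeal = Ideal.span {v}) (hv : v.Monic) :
    w.valuation (RatFunc F) (ι F (br F v.natDegree)) ≤ ep := by
  have hirr := irreducible_of_hw hw hv.ne_zero
  have := (val_le_pow_iff hw (br F v.natDegree) 1).2
  rw [pow_one, pow_one] at this
  exact this (dvd_br hirr)

/-- `[j]/[j-d]`. -/
noncomputable def rho (v : F[X]) (j : ℕ) : RatFunc F :=
  ι F (br F j) / ι F (br F (j - v.natDegree))

theorem rho_ne_zero {j : ℕ} (hj : v.natDegree < j) : rho v j ≠ 0 := by
  unfold rho
  exact div_ne_zero (ι_ne_zero (br_ne_zero (by omega))) (ι_ne_zero (br_ne_zero (by omega)))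

theorem br_sub_br (k d : ℕ) : br F (k + d) - br F k = (br F d) ^ (Fintype.card F ^ k) := by
  unfold br
  rw [sub_pow_card_pow, ← pow_mul, ← pow_add, add_comm d k]
  ring

theorem val_rho_sub_one (hw : w.asIdeal = Ideal.span {v}) (hv : v.Monic) {j : ℕ}
    (hj : v.natDegree < j) :
    w.valuation (RatFunc F) (rho v j - 1) ≤ ep ^ (j - v.natDegree) := by
  set d := v.natDegree with hd
  obtain ⟨k, rfl⟩ : ∃ k, j = k + 1 + d := ⟨j - 1 - d, by omega⟩
  have hk : k + 1 + d - d = k + 1 := by omega
  have hne := ι_ne_zero (br_ne_zero (F := F) (j := k + 1) (by omega))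
  have h1 : rho v (k + 1 + d) - 1 =
      (ι F (br F d)) ^ (Fintype.card F ^ (k + 1)) / ι F (br F (k + 1)) := by
    unfold rho
    rw [← hd, hk, div_sub_one hne, ← map_sub, br_sub_br, map_pow]
  rw [h1, map_div₀, map_pow, hk]
  have h2 := ep_le_val_br hw (F := F) (j := k + 1) (by omega)
  have h0 : 0 < w.valuation (RatFunc F) (ι F (br F (k + 1))) := lt_of_lt_of_le ep_pos h2
  rw [div_le_iff₀ h0]
  have h3 := val_br_d hw hv
  rw [← hd] at h3
  calc w.valuation (RatFunc F) (ι F (br F d)) ^ (Fintype.card F ^ (k + 1))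
      ≤ ep ^ (Fintype.card F ^ (k + 1)) := pow_le_pow_left₀ zero_le h3 _
    _ ≤ ep ^ (k + 1 + 1) := by
        apply ep_pow_le
        have := Nat.lt_pow_self (n := k + 1) (Fintype.one_lt_card (α := F))
        omega
    _ = ep ^ (k + 1) * ep := pow_succ _ _
    _ ≤ ep ^ (k + 1) * w.valuation (RatFunc F) (ι F (br F (k + 1))) := mul_le_mul_right h2 _

theorem xK_succ' (hv : v.Monic) {j : ℕ} (hj : v.natDegree ≤ j) :
    xK v (j + 1) = rho v (j + 1) * (xK v j) ^ (Fintype.card F) := by
  have h := xK_succ hv hj
  have hne := ι_ne_zero (br_ne_zero (F := F) (j := j + 1 - v.natDegree) (by omega))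
  unfold rho
  rw [div_mul_eq_mul_div, eq_div_iff hne, h]

theorem sub_pow_card_K (f g : RatFunc F) :
    (f - g) ^ (Fintype.card F) = f ^ (Fintype.card F) - g ^ (Fintype.card F) := by
  have := pow_card_pow_add (F := F) (f - g) g 1
  rw [pow_one, sub_add_cancel] at this
  rw [this]; ring

theorem val_xK_sub_one (hw : w.asIdeal = Ideal.span {v}) (hv : v.Monic) {j : ℕ}
    (hj : v.natDegree ≤ j) :
    w.valuation (RatFunc F) (xK v j - 1) ≤ ep ^ (max 1 (j - v.natDegree)) := by
  have hq : 2 ≤ Fintype.card F := Fintype.one_lt_card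
  induction j, hj using Nat.le_induction with
  | base =>
    have := val_xK_natDegree_sub_one hw hv
    simpa using this
  | succ j hj ih =>
    have h1 : xK v (j + 1) - 1 = rho v (j + 1) * ((xK v j - 1) ^ (Fintype.card F)) +
        (rho v (j + 1) - 1) := by
      rw [xK_succ' hv hj, sub_pow_card_K, one_pow]
      ring
    have hrho := val_rho_sub_one hw hv (j := j + 1) (by omega)
    have hrho1 : w.valuation (RatFunc F) (rho v (j + 1)) ≤ 1 := by
      have : rho v (j + 1) = (rho v (j + 1) - 1) + 1 := by ring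
      rw [this]
      apply (Valuation.map_add _ _ _).trans
      apply max_le
      · apply hrho.trans
        exact (ep_pow_le (Nat.zero_le _)).trans_eq (pow_zero _)
      · rw [map_one]
    rw [h1]
    apply (Valuation.map_add _ _ _).trans
    apply max_le
    · rw [map_mul, map_pow]
      apply (mul_le_of_le_one_left' hrho1).trans
      apply (pow_le_pow_left₀ zero_le ih _).trans
      rw [← pow_mul]
      apply ep_pow_le
      have : max 1 (j - v.natDegree) * 2 ≤ max 1 (j - v.natDegree) * Fintype.card F :=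
        Nat.mul_le_mul_left _ hq
      omega
    · apply hrho.trans
      apply ep_pow_le
      omega

end Pool.Agent.Lib253687
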