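import Mathlib
import Pool.Agent.Lib_253687.Wilson

/-!
Convergence of the products, and algebraicity for periodic digit sequences.
-/

namespace Pool.Agent.Lib253687

open Polynomial Finset IsDedekindDomain Filter Topology WithZero

variable {F : Type*} [Field F] [Fintype F]

variable {w : HeightOneSpectrum F[X]} {v : F[X]}

omit [Fintype F] in
/-- The completion is nonarchimedean. -/
theorem nonarch (hw : w.asIdeal = Ideal.span {v}) (hv : v ≠ 0) : NonarchimedeanAddGroup (Lw w) := by
  constructor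
  intro U hU
  obtain ⟨m, hm⟩ := (mem_nhds_zero_iff' (val_pi hw hv)).1 hU
  let V : AddSubgroup (Lw w) :=
    { carrier := {x | Valued.v x ≤ ep ^ m}
      add_mem' := fun {a b} ha hb => by
        simp only [Set.mem_ofPred_eq] at ha hb ⊢
        exact (Valuation.map_add _ a b).trans (max_le ha hb)
      zero_mem' := by
        simp only [Set.mem_ofPred_eq, map_zero]
        exact zero_le
      neg_mem' := fun {a} ha => by
        simp only [Set.mem_ofPred_eq, Valuation.map_neg]
        exact ha }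
  have hV : (V : Set (Lw w)) ∈ 𝓝 (0 : Lw w) :=
    (mem_nhds_zero_iff' (val_pi hw hv)).2 ⟨m, subset_rfl⟩
  exact ⟨⟨V, V.isOpen_of_mem_nhds hV⟩, hm⟩

omit [Fintype F] in
/-- A sequence with differences tending to `0` converges. -/
theorem exists_lim (hw : w.asIdeal = Ideal.span {v}) (hv : v ≠ 0) {s : ℕ → Lw w}
    (hs : ∀ m : ℕ, ∀ᶠ J in atTop, Valued.v (s (J + 1) - s J) ≤ ep ^ m) :
    ∃ x, Tendsto s atTop (𝓝 x) := by
  have := nonarch hw hv
  have h1 : CauchySeq s := by
    apply NonarchimedeanAddGroup.cauchySeq_of_tendsto_sub_nhds_zero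
    rw [tendsto_zero_iff' (val_pi hw hv)]
    exact hs
  exact cauchySeq_tendsto_of_complete h1

omit [Fintype F] in
theorem val_pow_sub_one_le {x : RatFunc F} (hx : w.valuation (RatFunc F) x ≤ 1) {g : ℤᵐ⁰}
    (h : w.valuation (RatFunc F) (x - 1) ≤ g) (n : ℕ) :
    w.valuation (RatFunc F) (x ^ n - 1) ≤ g := by
  induction n with
  | zero => simp
  | succ n ih =>
    have : x ^ (n + 1) - 1 = x ^ n * (x - 1) + (x ^ n - 1) := by ring
    rw [this]
    apply (Valuation.map_add _ _ _).trans
    apply max_le _ ih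
    rw [map_mul, map_pow]
    exact (mul_le_of_le_one_left' (pow_le_one₀ zero_le hx)).trans h

theorem exists_lim_fK (hw : w.asIdeal = Ideal.span {v}) (hv : v.Monic) (n : ℕ → ℕ) :
    ∃ f : Lw w, Tendsto (fun J => iL w (fK v n J)) atTop (𝓝 f) := by
  apply exists_lim hw hv.ne_zero
  intro m
  filter_upwards [eventually_ge_atTop (m + v.natDegree + 1)] with J hJ
  rw [← map_sub, val_iL]
  have h1 : fK v n (J + 1) - fK v n J = fK v n J * ((xK v J) ^ (n J) - 1) := by
    unfold fK
    rw [Finset.prod_Ico_succ_top (by omega)]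
    ring
  rw [h1, map_mul, val_fK hw hv.ne_zero, one_mul]
  apply (val_pow_sub_one_le (val_xK hw hv.ne_zero J).le
    (val_xK_sub_one hw hv (j := J) (by omega)) (n J)).trans
  apply ep_pow_le
  omega

theorem val_lim_fK (hw : w.asIdeal = Ideal.span {v}) (hv : v.Monic) {n : ℕ → ℕ} {f : Lw w}
    (hf : Tendsto (fun J => iL w (fK v n J)) atTop (𝓝 f)) : f ≠ 0 := by
  have hfval : Valued.v f = (1 : ℤᵐ⁰) := by
    apply val_lim_eq (val_pi hw hv.ne_zero) hf one_ne_zero
    exact Eventually.of_forall (fun J => by rw [val_iL, val_fK hw hv.ne_zero])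
  intro h
  rw [h, map_zero] at hfval
  exact zero_ne_one hfval

/-- The Teichmüller-type limits `lim t^(q^(dm+r))` are algebraic. -/
theorem exists_theta (hw : w.asIdeal = Ideal.span {v}) (hv : v.Monic) (r : ℕ) :
    ∃ θ : Lw w, IsAlgebraic (RatFunc F) θ ∧
      Tendsto (fun m => iL w (ι F (X ^ (Fintype.card F ^ (v.natDegree * m + r))))) atTop (𝓝 θ) := by
  have hirr := irreducible_of_hw hw hv.ne_zero
  have hd : 0 < v.natDegree := hirr.natDegree_pos
  have hex : ∃ θ : Lw w,
      Tendsto (fun m => iL w (ι F (X ^ (Fintype.card F ^ (v.natDegree * m + r))))) atTop (𝓝 θ) := by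
    apply exists_lim hw hv.ne_zero
    intro m
    filter_upwards [eventually_ge_atTop m] with J hJ
    rw [← map_sub, val_iL, ← map_sub]
    have h1 : (X ^ (Fintype.card F ^ (v.natDegree * (J + 1) + r)) -
        X ^ (Fintype.card F ^ (v.natDegree * J + r)) : F[X]) =
        (br F v.natDegree) ^ (Fintype.card F ^ (v.natDegree * J + r)) := by
      rw [← br_sub_br]
      unfold br
      have : v.natDegree * (J + 1) + r = v.natDegree * J + r + v.natDegree := by ring
      rw [this]
      ring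
    rw [h1, map_pow, map_pow]
    apply (pow_le_pow_left₀ zero_le (val_br_d hw hv) _).trans
    apply ep_pow_le
    have h2 : v.natDegree * J + r < Fintype.card F ^ (v.natDegree * J + r) :=
      Nat.lt_pow_self (Fintype.one_lt_card (α := F))
    have h3 : J ≤ v.natDegree * J := Nat.le_mul_of_pos_left _ hd
    omega
  obtain ⟨θ, hθ⟩ := hex
  refine ⟨θ, ?_, hθ⟩
  -- θ^(q^d) = θ
  have h1 : Tendsto (fun m => iL w (ι F (X ^ (Fintype.card F ^ (v.natDegree * (m + 1) + r)))))
      atTop (𝓝 θ) := hθ.comp (tendsto_add_atTop_nat 1)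
  have h2 : Tendsto (fun m => iL w (ι F (X ^ (Fintype.card F ^ (v.natDegree * (m + 1) + r)))))
      atTop (𝓝 (θ ^ (Fintype.card F ^ v.natDegree))) := by
    have h3 := hθ.pow (Fintype.card F ^ v.natDegree)
    refine h3.congr (fun m => ?_)
    rw [← map_pow, ← map_pow, ← pow_mul, ← pow_add]
    congr 4
    ring
  have h4 : θ ^ (Fintype.card F ^ v.natDegree) = θ := tendsto_nhds_unique h2 h1
  refine ⟨X ^ (Fintype.card F ^ v.natDegree) - X, ?_, ?_⟩
  · apply FiniteField.X_pow_card_sub_X_ne_zero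
    exact Nat.one_lt_pow hd.ne' Fintype.one_lt_card
  · simp [h4]

/-- `∏_{d<j<J} ρ_j^(c_j)`. -/
noncomputable def RK (v : F[X]) (c : ℕ → ℕ) (J : ℕ) : RatFunc F :=
  ∏ j ∈ Ico (v.natDegree + 1) J, (rho v j) ^ (c j)

theorem RK_ne_zero (v : F[X]) (c : ℕ → ℕ) (J : ℕ) : RK v c J ≠ 0 := by
  unfold RK
  rw [Finset.prod_ne_zero_iff]
  intro j hj
  rw [Finset.mem_Ico] at hj
  exact pow_ne_zero _ (rho_ne_zero (by omega))

theorem fK_succ (hv : v.Monic) (c : ℕ → ℕ) {J : ℕ} (hJ : v.natDegree + 1 ≤ J) :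
    fK v c (J + 1) = RK v c (J + 1) * ((xK v v.natDegree) ^ (c (v.natDegree + 1)) *
      fK v (fun j => c (j + 1)) J) ^ (Fintype.card F) := by
  unfold fK RK
  have h1 : ∀ f : ℕ → RatFunc F, ∏ j ∈ Ico (v.natDegree + 1) (J + 1), f j =
      ∏ j ∈ Ico v.natDegree J, f (j + 1) := by
    intro f
    rw [Finset.prod_Ico_add' (fun j => f j) v.natDegree J 1]
  rw [h1, h1]
  have h2 : (xK v v.natDegree) ^ (c (v.natDegree + 1)) *
      ∏ j ∈ Ico (v.natDegree + 1) J, (xK v j) ^ (c (j + 1)) =
      ∏ j ∈ Ico v.natDegree J, (xK v j) ^ (c (j + 1)) := by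
    rw [Finset.prod_eq_prod_Ico_succ_bot (show v.natDegree < J by omega)]
  rw [h2, ← Finset.prod_pow, ← Finset.prod_mul_distrib]
  apply Finset.prod_congr rfl
  intro j hj
  rw [Finset.mem_Ico] at hj
  rw [xK_succ' hv hj.1, mul_pow]
  congr 1
  rw [← pow_mul, ← pow_mul, mul_comm]

/-- Telescoping for periodic exponents. -/
theorem RK_periodic {c : ℕ → ℕ} (hc : ∀ j, c (j + v.natDegree) = c j) {J : ℕ}
    (hJ : 1 ≤ J) :
    RK v c (J + v.natDegree) * ∏ i ∈ Ico 1 (v.natDegree + 1), (ι F (br F i)) ^ (c i) =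
      ∏ i ∈ Ico J (J + v.natDegree), (ι F (br F i)) ^ (c i) := by
  set d := v.natDegree with hd
  set g : ℕ → RatFunc F := fun i => (ι F (br F i)) ^ (c i) with hg
  have hg0 : ∀ i, 1 ≤ i → g i ≠ 0 := fun i hi => pow_ne_zero _ (ι_ne_zero (br_ne_zero hi))
  have h1 : RK v c (J + d) * ∏ i ∈ Ico 1 J, g i = ∏ i ∈ Ico (d + 1) (J + d), g i := by
    unfold RK
    have e1 : Ico (d + 1) (J + d) = Ico (1 + d) (J + d) := by rw [add_comm d 1]
    rw [e1, ← Finset.prod_Ico_add' (fun j => (rho v j) ^ (c j)) 1 J d,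
      ← Finset.prod_Ico_add' g 1 J d, ← Finset.prod_mul_distrib]
    apply Finset.prod_congr rfl
    intro i hi
    rw [Finset.mem_Ico] at hi
    have hne := ι_ne_zero (br_ne_zero (F := F) (j := i) (by omega))
    rw [hg]
    simp only
    rw [hc, ← mul_pow]
    congr 1
    unfold rho
    rw [← hd, Nat.add_sub_cancel]
    field_simp
  have h2 : (∏ i ∈ Ico 1 J, g i) * ∏ i ∈ Ico J (J + d), g i =
      (∏ i ∈ Ico 1 (d + 1), g i) * ∏ i ∈ Ico (d + 1) (J + d), g i := by
    rw [Finset.prod_Ico_consecutive _ hJ (by omega), Finset.prod_Ico_consecutive _ (by omega) (by omega)]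
  have h3 : ∏ i ∈ Ico 1 J, g i ≠ 0 := by
    rw [Finset.prod_ne_zero_iff]
    intro i hi
    exact hg0 i (Finset.mem_Ico.1 hi).1
  apply mul_left_cancel₀ h3
  rw [h2, ← h1]
  ring

theorem periodic_mul {c : ℕ → ℕ} {d : ℕ} (hc : ∀ j, c (j + d) = c j) (m r : ℕ) :
    c (d * m + r) = c r := by
  induction m with
  | zero => simp
  | succ m ih =>
    have : d * (m + 1) + r = d * m + r + d := by ring
    rw [this, hc, ih]

/-- One step: `h(c) = A h(sc)^q` with `A` algebraic. -/
theorem alg_rel_one (hw : w.asIdeal = Ideal.span {v}) (hv : v.Monic) {c : ℕ → ℕ}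
    (hc : ∀ j, c (j + v.natDegree) = c j) {h h' : Lw w}
    (hh : Tendsto (fun J => iL w (fK v c J)) atTop (𝓝 h))
    (hh' : Tendsto (fun J => iL w (fK v (fun j => c (j + 1)) J)) atTop (𝓝 h')) :
    ∃ A : Lw w, IsAlgebraic (RatFunc F) A ∧ h = A * h' ^ (Fintype.card F) := by
  have hirr := irreducible_of_hw hw hv.ne_zero
  have hd : 0 < v.natDegree := hirr.natDegree_pos
  set x0 : RatFunc F := (xK v v.natDegree) ^ (c (v.natDegree + 1)) with hx0
  have hx0' : iL w x0 ≠ 0 := by
    rw [Ne, map_eq_zero, hx0]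
    exact pow_ne_zero _ (xK_ne_zero _ _)
  have hh'0 : h' ≠ 0 := val_lim_fK hw hv hh'
  -- convergence of RK
  set R : Lw w := h / (iL w x0 * h') ^ (Fintype.card F) with hR
  have hRlim : Tendsto (fun J => iL w (RK v c J)) atTop (𝓝 R) := by
    rw [← tendsto_add_atTop_iff_nat 1]
    have h1 : Tendsto (fun J => iL w (fK v c (J + 1)) /
        (iL w x0 * iL w (fK v (fun j => c (j + 1)) J)) ^ (Fintype.card F)) atTop (𝓝 R) := by
      apply Tendsto.div
      · exact (tendsto_add_atTop_iff_nat 1).2 hh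
      · exact (hh'.const_mul _).pow _
      · exact pow_ne_zero _ (mul_ne_zero hx0' hh'0)
    apply h1.congr'
    filter_upwards [eventually_ge_atTop (v.natDegree + 1)] with J hJ
    have h2 := fK_succ hv c hJ
    rw [h2, map_mul, map_pow, map_mul]
    have h3 : iL w (fK v (fun j => c (j + 1)) J) ≠ 0 := by
      rw [Ne, map_eq_zero]; exact fK_ne_zero _ _ _
    have h4 : (iL w x0 * iL w (fK v (fun j => c (j + 1)) J)) ^ (Fintype.card F) ≠ 0 :=
      pow_ne_zero _ (mul_ne_zero hx0' h3)
    rw [← hx0, mul_div_assoc, div_self h4, mul_one]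
  -- algebraicity
  set K0 : RatFunc F := ∏ i ∈ Ico 1 (v.natDegree + 1), (ι F (br F i)) ^ (c i) with hK0
  have hK00 : iL w K0 ≠ 0 := by
    rw [Ne, map_eq_zero, hK0, Finset.prod_eq_zero_iff]
    rintro ⟨i, hi, h0⟩
    rw [Finset.mem_Ico] at hi
    exact pow_ne_zero _ (ι_ne_zero (br_ne_zero (F := F) hi.1)) h0
  choose θ hθalg hθ using fun r => exists_theta hw hv r
  set P : Lw w := ∏ r ∈ range v.natDegree, (θ r - iL w (ι F X)) ^ (c r) with hP
  have hPalg : IsAlgebraic (RatFunc F) P := by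
    rw [hP]
    have : ∀ s : Finset ℕ, IsAlgebraic (RatFunc F) (∏ r ∈ s, (θ r - iL w (ι F X)) ^ (c r)) := by
      intro s
      induction s using Finset.induction_on with
      | empty => simpa using isAlgebraic_one
      | insert a s ha ih =>
        rw [Finset.prod_insert ha]
        exact (((hθalg a).sub (isAlgebraic_iL _)).pow _).mul ih
    exact this _
  have hPlim : Tendsto (fun m => iL w (∏ i ∈ Ico (v.natDegree * m) (v.natDegree * m + v.natDegree),
      (ι F (br F i)) ^ (c i))) atTop (𝓝 P) := by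
    have h1 : ∀ m, iL w (∏ i ∈ Ico (v.natDegree * m) (v.natDegree * m + v.natDegree),
      (ι F (br F i)) ^ (c i)) = ∏ r ∈ range v.natDegree,
        (iL w (ι F (X ^ (Fintype.card F ^ (v.natDegree * m + r)))) - iL w (ι F X)) ^ (c r) := by
      intro m
      rw [Finset.prod_Ico_eq_prod_range, Nat.add_sub_cancel_left, map_prod]
      apply Finset.prod_congr rfl
      intro r _
      rw [periodic_mul hc, map_pow]
      unfold br
      rw [map_sub, map_sub]
    simp_rw [h1]
    apply tendsto_finsetProd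
    intro r _
    exact ((hθ r).sub_const _).pow _
  have hRK : R * iL w K0 = P := by
    have h1 : Tendsto (fun m => iL w (RK v c (v.natDegree * m + v.natDegree)) * iL w K0) atTop
        (𝓝 (R * iL w K0)) := by
      apply Tendsto.mul_const
      apply hRlim.comp
      apply tendsto_atTop_mono (f := fun m => m)
      · intro m
        have := Nat.le_mul_of_pos_left m hd
        omega
      · exact tendsto_id
    have h2 : Tendsto (fun m => iL w (RK v c (v.natDegree * m + v.natDegree)) * iL w K0) atTop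
        (𝓝 P) := by
      apply hPlim.congr'
      filter_upwards [eventually_ge_atTop 1] with m hm
      rw [← map_mul]
      congr 1
      have := RK_periodic hc (J := v.natDegree * m) (Nat.mul_pos hd hm)
      rw [← this]
    exact tendsto_nhds_unique h1 h2
  have hRalg : IsAlgebraic (RatFunc F) R := by
    have : R = P * (iL w K0)⁻¹ := by
      rw [← hRK]; field_simp
    rw [this]
    exact hPalg.mul (isAlgebraic_iL _).inv
  refine ⟨R * (iL w x0) ^ (Fintype.card F), hRalg.mul ((isAlgebraic_iL _).pow _), ?_⟩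
  rw [hR]
  have : (iL w x0 * h') ^ (Fintype.card F) ≠ 0 := pow_ne_zero _ (mul_ne_zero hx0' hh'0)
  rw [mul_assoc, ← mul_pow, div_mul_cancel₀ _ this]

theorem alg_rel (hw : w.asIdeal = Ideal.span {v}) (hv : v.Monic) (k : ℕ) : ∀ {c : ℕ → ℕ}
    (_ : ∀ j, c (j + v.natDegree) = c j) {h h' : Lw w}
    (_ : Tendsto (fun J => iL w (fK v c J)) atTop (𝓝 h))
    (_ : Tendsto (fun J => iL w (fK v (fun j => c (j + k)) J)) atTop (𝓝 h')),
    ∃ A : Lw w, IsAlgebraic (RatFunc F) A ∧ h = A * h' ^ (Fintype.card F ^ k) := by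
  induction k with
  | zero =>
    intro c hc h h' hh hh'
    refine ⟨1, isAlgebraic_one, ?_⟩
    rw [pow_zero, pow_one, one_mul]
    exact tendsto_nhds_unique hh hh'
  | succ k ih =>
    intro c hc h h' hh hh'
    obtain ⟨h1, hh1⟩ := exists_lim_fK hw hv (fun j => c (j + 1))
    obtain ⟨A, hA, hAe⟩ := alg_rel_one hw hv hc hh hh1
    have hc1 : ∀ j, (fun j => c (j + 1)) (j + v.natDegree) = (fun j => c (j + 1)) j := by
      intro j
      simp only
      have : j + v.natDegree + 1 = j + 1 + v.natDegree := by ring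
      rw [this, hc]
    have hh'2 : Tendsto (fun J => iL w (fK v (fun j => (fun j => c (j + 1)) (j + k)) J)) atTop
        (𝓝 h') := by
      have : (fun j => (fun j => c (j + 1)) (j + k)) = (fun j => c (j + (k + 1))) := by
        funext j
        simp only [add_assoc]
      rw [this]
      exact hh'
    obtain ⟨B, hB, hBe⟩ := ih hc1 hh1 hh'2
    refine ⟨A * B ^ (Fintype.card F), hA.mul (hB.pow _), ?_⟩
    rw [hAe, hBe, mul_pow, ← pow_mul, ← pow_succ, mul_assoc]

/-- Algebraicity for purely periodic digit sequences. -/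
theorem isAlgebraic_of_periodic (hw : w.asIdeal = Ideal.span {v}) (hv : v.Monic) {c : ℕ → ℕ}
    (hc : ∀ j, c (j + v.natDegree) = c j) {h : Lw w}
    (hh : Tendsto (fun J => iL w (fK v c J)) atTop (𝓝 h)) : IsAlgebraic (RatFunc F) h := by
  have hirr := irreducible_of_hw hw hv.ne_zero
  have hd : 0 < v.natDegree := hirr.natDegree_pos
  have h0 : h ≠ 0 := val_lim_fK hw hv hh
  have hh' : Tendsto (fun J => iL w (fK v (fun j => c (j + v.natDegree)) J)) atTop (𝓝 h) := by
    simp_rw [hc]
    exact hh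
  obtain ⟨A, hA, hAe⟩ := alg_rel hw hv v.natDegree hc hh hh'
  have hQ : 1 < Fintype.card F ^ v.natDegree := Nat.one_lt_pow hd.ne' Fintype.one_lt_card
  obtain ⟨r, hr⟩ : ∃ r, Fintype.card F ^ v.natDegree = r + 1 := ⟨_, (Nat.sub_add_cancel hQ.le).symm⟩
  have hr0 : 0 < r := by omega
  have h1 : h ^ r = A⁻¹ := by
    rw [hr, pow_succ] at hAe
    have h2 : A * h ^ r = 1 := by
      apply mul_right_cancel₀ h0
      rw [mul_assoc, ← hAe, one_mul]
    exact (inv_eq_of_mul_eq_one_right h2).symm
  have h3 : IsAlgebraic (RatFunc F) (h ^ r) := by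
    rw [h1]; exact hA.inv
  exact IsAlgebraic.of_pow hr0 h3

/-- Algebraicity for ultimately periodic digit sequences. -/
theorem isAlgebraic_of_eventually_periodic (hw : w.asIdeal = Ideal.span {v}) (hv : v.Monic)
    {c : ℕ → ℕ} {J0 : ℕ} (hc : ∀ j ≥ J0, c (j + v.natDegree) = c j) {h : Lw w}
    (hh : Tendsto (fun J => iL w (fK v c J)) atTop (𝓝 h)) : IsAlgebraic (RatFunc F) h := by
  have hirr := irreducible_of_hw hw hv.ne_zero
  have hd : 0 < v.natDegree := hirr.natDegree_pos
  set d := v.natDegree with hdd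
  -- the purely periodic modification
  set c' : ℕ → ℕ := fun j => c (j % d + d * J0) with hc'
  have hc'per : ∀ j, c' (j + d) = c' j := by
    intro j
    rw [hc']
    simp only [Nat.add_mod_right]
  have hJ0 : J0 ≤ d * J0 := Nat.le_mul_of_pos_left _ hd
  have hper2 : ∀ m j, J0 ≤ j → c (j + d * m) = c j := by
    intro m
    induction m with
    | zero => intro j _; simp
    | succ m ih =>
      intro j hj
      have : j + d * (m + 1) = j + d * m + d := by ring
      rw [this, hc _ (by omega), ih j hj]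
  have hagree : ∀ j, d * J0 ≤ j → c' j = c j := by
    intro j hj
    rw [hc']
    simp only
    obtain ⟨i, rfl⟩ := Nat.exists_eq_add_of_le hj
    have h1 : (d * J0 + i) % d = i % d := by simp [Nat.add_mod]
    rw [h1]
    have h2 : d * J0 + i = (i % d + d * J0) + d * (i / d) := by
      have := Nat.mod_add_div i d
      omega
    conv_rhs => rw [h2]
    exact (hper2 (i / d) (i % d + d * J0) (by omega)).symm
  obtain ⟨h', hh'⟩ := exists_lim_fK hw hv c'
  have h'alg := isAlgebraic_of_periodic hw hv hc'per hh'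
  set J1 := d * J0 + (d + 1) with hJ1
  have hsplit : ∀ J, J1 ≤ J → fK v c J = fK v c J1 / fK v c' J1 * fK v c' J := by
    intro J hJ
    have h1 : ∀ e : ℕ → ℕ, fK v e J = fK v e J1 * ∏ j ∈ Ico J1 J, (xK v j) ^ (e j) := by
      intro e
      unfold fK
      rw [Finset.prod_Ico_consecutive _ (by omega) hJ]
    have h2 : ∏ j ∈ Ico J1 J, (xK v j) ^ (c j) = ∏ j ∈ Ico J1 J, (xK v j) ^ (c' j) := by
      apply Finset.prod_congr rfl
      intro j hj
      rw [Finset.mem_Ico] at hj
      rw [hagree j (by omega)]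
    rw [h1 c, h1 c', h2]
    have := fK_ne_zero v c' J1
    field_simp
  have hlim : Tendsto (fun J => iL w (fK v c J)) atTop
      (𝓝 (iL w (fK v c J1 / fK v c' J1) * h')) := by
    have h1 := hh'.const_mul (iL w (fK v c J1 / fK v c' J1))
    apply h1.congr'
    filter_upwards [eventually_ge_atTop J1] with J hJ
    rw [hsplit J hJ, map_mul]
  rw [tendsto_nhds_unique hh hlim]
  exact (isAlgebraic_iL _).mul h'alg

end Pool.Agent.Lib253687
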