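import Mathlib
import Pool.Agent.Lib_253687.Per

/-!
Main theorem: an algebraic product has ultimately `d`-periodic digits.
-/

namespace Pool.Agent.Lib253687

open Polynomial Finset IsDedekindDomain Filter Topology WithZero

variable {F : Type*} [Field F] [Fintype F]

variable {w : HeightOneSpectrum F[X]} {v : F[X]}

theorem periodic_of_algebraic (hw : w.asIdeal = Ideal.span {v}) (hv : v.Monic) (M : ℕ) :
    ∀ (n : ℕ → ℕ) (_ : ∀ j, n j ≤ M) (f : Lw w)
      (_ : Tendsto (fun J => iL w (fK v n J)) atTop (𝓝 f)) (_ : IsAlgebraic (RatFunc F) f),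
      ∃ N, ∀ j ≥ N, n (j + v.natDegree) = n j := by
  obtain ⟨p, hp⟩ := CharP.exists F
  have := hp
  have hpp : Fact p.Prime := ⟨CharP.char_is_prime F p⟩
  have hp2 : 2 ≤ p := hpp.out.two_le
  induction M using Nat.strong_induction_on with
  | _ M ih =>
    intro n hn f hf hfalg
    rcases Nat.eq_zero_or_pos M with hM | hM
    · refine ⟨0, fun j _ => ?_⟩
      have h1 := hn j
      have h2 := hn (j + v.natDegree)
      omega
    obtain ⟨N1, hN1⟩ := digits_cong hw hv n hf hfalg
    have hmod : ∀ j ≥ N1, n (j + v.natDegree) % p = n j % p := by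
      intro j hj
      have := hN1 j hj
      exact (CharP.natCast_eq_natCast F p).1 this
    set c : ℕ → ℕ := fun j => n j % p with hc
    set n' : ℕ → ℕ := fun j => n j / p with hn'
    obtain ⟨h, hh⟩ := exists_lim_fK hw hv c
    obtain ⟨g, hg⟩ := exists_lim_fK hw hv n'
    have hhalg : IsAlgebraic (RatFunc F) h :=
      isAlgebraic_of_eventually_periodic hw hv (J0 := N1) hmod hh
    have hh0 : h ≠ 0 := val_lim_fK hw hv hh
    have hfac : ∀ J, fK v n J = fK v c J * (fK v n' J) ^ p := by
      intro J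
      unfold fK
      rw [← Finset.prod_pow, ← Finset.prod_mul_distrib]
      apply Finset.prod_congr rfl
      intro j _
      rw [← pow_mul, ← pow_add]
      congr 1
      rw [hc, hn']
      simp only
      have := Nat.mod_add_div (n j) p
      rw [mul_comm] at this
      exact this.symm
    have hlim : Tendsto (fun J => iL w (fK v n J)) atTop (𝓝 (h * g ^ p)) := by
      have h1 := hh.mul (hg.pow p)
      refine h1.congr (fun J => ?_)
      rw [hfac, map_mul, map_pow]
    have hfe : f = h * g ^ p := tendsto_nhds_unique hf hlim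
    have hgalg : IsAlgebraic (RatFunc F) g := by
      have h1 : g ^ p = f * h⁻¹ := by
        rw [hfe]; field_simp
      have h2 : IsAlgebraic (RatFunc F) (g ^ p) := by
        rw [h1]; exact hfalg.mul hhalg.inv
      exact IsAlgebraic.of_pow (by omega) h2
    obtain ⟨N2, hN2⟩ := ih (M / p) (Nat.div_lt_self hM hp2) n'
      (fun j => Nat.div_le_div_right (hn j)) g hg hgalg
    refine ⟨max N1 N2, fun j hj => ?_⟩
    have h1 := hmod j (le_trans (le_max_left _ _) hj)
    have h2 := hN2 j (le_trans (le_max_right _ _) hj)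
    rw [hn'] at h2
    simp only at h2
    have h3 := Nat.mod_add_div (n (j + v.natDegree)) p
    have h4 := Nat.mod_add_div (n j) p
    rw [← h3, ← h4, h1, h2]

/-- The full products, starting at `j = 0`. -/
theorem full_product (hw : w.asIdeal = Ideal.span {v}) (hv : v.Monic) (n : ℕ → ℕ) (M : ℕ)
    (hn : ∀ j, n j ≤ M) :
    ∃ P : Lw w, Tendsto (fun J => ∏ j ∈ range J, (algebraMap F[X] (Lw w) (-(Dv v j))) ^ (n j))
      atTop (𝓝 P) ∧ (IsAlgebraic (RatFunc F) P → ∃ N, ∀ j ≥ N, n (j + v.natDegree) = n j) := by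
  obtain ⟨f, hf⟩ := exists_lim_fK hw hv n
  set c0 : RatFunc F := ∏ j ∈ range (v.natDegree + 1), (xK v j) ^ (n j) with hc0
  have hc00 : iL w c0 ≠ 0 := by
    rw [Ne, map_eq_zero, hc0, Finset.prod_eq_zero_iff]
    rintro ⟨i, hi, h0⟩
    exact pow_ne_zero _ (xK_ne_zero v i) h0
  have hsplit : ∀ J, v.natDegree + 1 ≤ J →
      ∏ j ∈ range J, (algebraMap F[X] (Lw w) (-(Dv v j))) ^ (n j) = iL w c0 * iL w (fK v n J) := by
    intro J hJ
    rw [← map_mul, hc0]
    unfold fK
    rw [Finset.prod_range_mul_prod_Ico _ hJ, map_prod]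
    apply Finset.prod_congr rfl
    intro j _
    rw [map_pow]
    rfl
  refine ⟨iL w c0 * f, ?_, ?_⟩
  · apply (hf.const_mul (iL w c0)).congr'
    filter_upwards [eventually_ge_atTop (v.natDegree + 1)] with J hJ
    rw [hsplit J hJ]
  · intro halg
    apply periodic_of_algebraic hw hv M n hn f hf
    have : f = (iL w c0 * f) * (iL w c0)⁻¹ := by field_simp
    rw [this]
    exact halg.mul (isAlgebraic_iL _).inv

end Pool.Agent.Lib253687
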